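import Pool.Agent.N585.FP.Defs

/-!
Project FP (helper585), task FP/1 (helper160): straight-line 2-layer fan-planar drawings are
combinatorial drawings.
-/

set_option autoImplicit false

namespace Pool.Agent.N160.FPgeo

open Pool.Agent.N585.FP

section plane

theorem mem_open {P Q x : ℝ × ℝ} : x ∈ openSegment ℝ P Q ↔ ∃ s : ℝ, 0 < s ∧ s < 1 ∧
    x.1 = s * P.1 + (1 - s) * Q.1 ∧ x.2 = s * P.2 + (1 - s) * Q.2 := by
  constructor
  · rintro ⟨a, b, ha, hb, hab, rfl⟩
    have h : b = 1 - a := by linarith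
    subst h
    exact ⟨a, ha, by linarith, rfl, rfl⟩
  · rintro ⟨s, h0, h1, h2, h3⟩
    exact ⟨s, 1 - s, h0, by linarith, by ring, Prod.ext h2.symm h3.symm⟩

theorem mem_closed {P Q x : ℝ × ℝ} : x ∈ segment ℝ P Q ↔ ∃ s : ℝ, 0 ≤ s ∧ s ≤ 1 ∧
    x.1 = s * P.1 + (1 - s) * Q.1 ∧ x.2 = s * P.2 + (1 - s) * Q.2 := by
  constructor
  · rintro ⟨a, b, ha, hb, hab, rfl⟩
    have h : b = 1 - a := by linarith
    subst h
    exact ⟨a, ha, by linarith, rfl, rfl⟩
  · rintro ⟨s, h0, h1, h2, h3⟩
    exact ⟨s, 1 - s, h0, by linarith, by ring, Prod.ext h2.symm h3.symm⟩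

theorem real_cross {A B s : ℝ} (h0 : 0 < s) (h1 : s < 1) (h : s * A + (1 - s) * B = 0) :
    (A < 0 ∧ 0 < B) ∨ (0 < A ∧ B < 0) ∨ (A = 0 ∧ B = 0) := by
  have h2 : 0 < 1 - s := by linarith
  rcases lt_trichotomy A 0 with hA | hA | hA
  · left
    refine ⟨hA, ?_⟩
    by_contra hB
    push Not at hB
    nlinarith [mul_neg_of_pos_of_neg h0 hA, mul_nonneg h2.le (neg_nonneg.2 hB)]
  · right; right
    refine ⟨hA, ?_⟩
    rw [hA, mul_zero, zero_add] at h
    rcases mul_eq_zero.1 h with h3 | h3
    · linarith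
    · exact h3
  · right; left
    refine ⟨hA, ?_⟩
    by_contra hB
    push Not at hB
    nlinarith [mul_pos h0 hA, mul_nonneg h2.le hB]

theorem cross_real {A B : ℝ} (h : (A < 0 ∧ 0 < B) ∨ (0 < A ∧ B < 0)) :
    ∃ s : ℝ, 0 < s ∧ s < 1 ∧ s * A + (1 - s) * B = 0 := by
  have hne : B - A ≠ 0 := by
    rcases h with ⟨h1, h2⟩ | ⟨h1, h2⟩ <;> intro h3 <;> linarith
  refine ⟨B / (B - A), ?_, ?_, ?_⟩
  · rcases h with ⟨h1, h2⟩ | ⟨h1, h2⟩
    · exact div_pos h2 (by linarith)
    · exact div_pos_of_neg_of_neg h2 (by linarith)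
  · rcases h with ⟨h1, h2⟩ | ⟨h1, h2⟩
    · rw [div_lt_one (by linarith)]
      linarith
    · rw [div_lt_one_of_neg (by linarith)]
      linarith
  · field_simp
    ring

/-- Two segments between the two lines which meet in an inner point. -/
theorem meet_real {y₀ y₁ : ℝ} (hy : y₀ ≠ y₁) {P Q P' Q' x : ℝ × ℝ} (hP : P.2 = y₁)
    (hQ : Q.2 = y₀) (hP' : P'.2 = y₁) (hQ' : Q'.2 = y₀) (h : x ∈ openSegment ℝ P Q)
    (h' : x ∈ openSegment ℝ P' Q') : ∃ s : ℝ, 0 < s ∧ s < 1 ∧ x.2 = s * y₁ + (1 - s) * y₀ ∧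
      s * (P.1 - P'.1) + (1 - s) * (Q.1 - Q'.1) = 0 := by
  obtain ⟨s, h0, h1, h2, h3⟩ := mem_open.1 h
  obtain ⟨s', h0', h1', h2', h3'⟩ := mem_open.1 h'
  rw [hP, hQ] at h3
  rw [hP', hQ'] at h3'
  have h4 : (s - s') * (y₁ - y₀) = 0 := by linear_combination h3' - h3
  have h5 : s = s' := by
    rcases mul_eq_zero.1 h4 with h6 | h6
    · linarith
    · exact absurd (by linarith) hy
  subst h5
  exact ⟨s, h0, h1, h3, by linear_combination h2' - h2⟩

theorem real_meet {y₀ y₁ : ℝ} {P Q P' Q' : ℝ × ℝ} (hP : P.2 = y₁)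
    (hQ : Q.2 = y₀) (hP' : P'.2 = y₁) (hQ' : Q'.2 = y₀)
    (h : (P.1 < P'.1 ∧ Q'.1 < Q.1) ∨ (P'.1 < P.1 ∧ Q.1 < Q'.1)) :
    ∃ x, x ∈ openSegment ℝ P Q ∧ x ∈ openSegment ℝ P' Q' := by
  obtain ⟨s, h0, h1, h2⟩ := cross_real (A := P.1 - P'.1) (B := Q.1 - Q'.1) (by
    rcases h with ⟨h1, h2⟩ | ⟨h1, h2⟩
    · left; constructor <;> linarith
    · right; constructor <;> linarith)
  refine ⟨(s * P.1 + (1 - s) * Q.1, s * P.2 + (1 - s) * Q.2), ?_, ?_⟩
  · exact mem_open.2 ⟨s, h0, h1, rfl, rfl⟩
  · refine mem_open.2 ⟨s, h0, h1, ?_, ?_⟩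
    · change s * P.1 + (1 - s) * Q.1 = _
      linear_combination h2
    · change s * P.2 + (1 - s) * Q.2 = _
      rw [hP, hQ, hP', hQ']

end plane

section conf2

/-- Configuration (II) never happens for straight segments. -/
theorem conf2 {a b u v x : ℝ × ℝ} (h1 : x ∈ openSegment ℝ a b) (h2 : x ∈ openSegment ℝ u v) :
    ∃ l : ℝ, 0 < l ∧ l * cp (b - a) (v - u) = cp (b - a) (a - u) := by
  obtain ⟨s, h0, h1, h3, h4⟩ := mem_open.1 h1
  obtain ⟨t, k0, k1, k3, k4⟩ := mem_open.1 h2
  refine ⟨1 - t, by linarith, ?_⟩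
  have e1 : u.1 + (1 - t) * (v.1 - u.1) = a.1 + (1 - s) * (b.1 - a.1) := by
    linear_combination h3 - k3
  have e2 : u.2 + (1 - t) * (v.2 - u.2) = a.2 + (1 - s) * (b.2 - a.2) := by
    linear_combination h4 - k4
  unfold cp
  simp only [Prod.fst_sub, Prod.snd_sub]
  linear_combination (b.1 - a.1) * e2 - (b.2 - a.2) * e1

end conf2

section forward

variable {n : ℕ} {f : Fin n → ℝ × ℝ} {y₁ : ℝ}

open Classical in
/-- the side -/
noncomputable def sd (f : Fin n → ℝ × ℝ) (y₁ : ℝ) (i : ℕ) : Bool :=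
  if h : i < n then decide ((f ⟨i, h⟩).2 = y₁) else false

open Classical in
/-- the rank -/
noncomputable def rk (f : Fin n → ℝ × ℝ) (i : ℕ) : ℕ :=
  if h : i < n then (Finset.univ.filter fun j : Fin n => (f j).1 < (f ⟨i, h⟩).1).card else 0

/-- the position -/
noncomputable def ps (f : Fin n → ℝ × ℝ) (y₁ : ℝ) (i : ℕ) : ℕ :=
  2 * rk f i + (if sd f y₁ i then 1 else 0)

theorem sd_true {i : ℕ} (h : i < n) : sd f y₁ i = true ↔ (f ⟨i, h⟩).2 = y₁ := by
  rw [sd, dif_pos h, decide_eq_true_iff]

theorem rk_lt {i j : ℕ} (hi : i < n) (hj : j < n) :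
    rk f i < rk f j ↔ (f ⟨i, hi⟩).1 < (f ⟨j, hj⟩).1 := by
  classical
  have key : ∀ {i j : ℕ} (hi : i < n) (hj : j < n), (f ⟨i, hi⟩).1 < (f ⟨j, hj⟩).1 →
      rk f i < rk f j := by
    intro i j hi hj h
    rw [rk, rk, dif_pos hi, dif_pos hj]
    apply Finset.card_lt_card
    rw [Finset.ssubset_iff_of_subset]
    · refine ⟨⟨i, hi⟩, ?_, ?_⟩
      · simpa using h
      · simp
    · intro k hk
      simp only [Finset.mem_filter, Finset.mem_univ, true_and] at hk ⊢
      exact hk.trans h
  constructor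
  · intro h
    by_contra hcon
    push Not at hcon
    rcases hcon.lt_or_eq with h1 | h1
    · exact absurd (key hj hi h1) (by omega)
    · have : rk f i = rk f j := by
        rw [rk, rk, dif_pos hi, dif_pos hj, h1]
      omega
  · exact key hi hj

end forward

theorem stmGeo : StmGeo := by
  intro n G H hGH
  constructor
  · rintro ⟨f, y₀, y₁, hy, hf, hb, hdr, hI, hII⟩
    refine ⟨sd f y₁, ps f y₁, ?_, ?_, ?_⟩
    · intro x hx y hyy hxy
      rw [Finset.mem_range] at hx hyy
      have h1 : (sd f y₁ x = true ↔ sd f y₁ y = true) ∧ rk f x = rk f y := by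
        unfold ps at hxy
        by_cases h2 : sd f y₁ x = true
        · by_cases h3 : sd f y₁ y = true
          · rw [if_pos h2, if_pos h3] at hxy
            exact ⟨⟨fun _ => h3, fun _ => h2⟩, by omega⟩
          · rw [if_pos h2, if_neg h3] at hxy
            omega
        · by_cases h3 : sd f y₁ y = true
          · rw [if_neg h2, if_pos h3] at hxy
            omega
          · rw [if_neg h2, if_neg h3] at hxy
            exact ⟨⟨fun h => absurd h h2, fun h => absurd h h3⟩, by omega⟩
      obtain ⟨h2, h3⟩ := h1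
      rw [sd_true hx, sd_true hyy] at h2
      have h4 : (f ⟨x, hx⟩).1 = (f ⟨y, hyy⟩).1 := by
        have h5 : ¬ rk f x < rk f y := by omega
        have h6 : ¬ rk f y < rk f x := by omega
        rw [rk_lt hx hyy] at h5
        rw [rk_lt hyy hx] at h6
        push Not at h5 h6
        exact le_antisymm h6 h5
      have h5 : (f ⟨x, hx⟩).2 = (f ⟨y, hyy⟩).2 := by
        rcases hf ⟨x, hx⟩ with h6 | h6 <;> rcases hf ⟨y, hyy⟩ with h7 | h7
        · rw [h6, h7]
        · exact absurd (h6.symm.trans (h2.2 h7)) hy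
        · exact absurd (h7.symm.trans (h2.1 h6)) hy
        · rw [h6, h7]
      have h6 := hdr.inj (Prod.ext h4 h5)
      exact congrArg Fin.val h6
    · intro x hx y hyy hadj hs
      rw [Finset.mem_range] at hx hyy
      have h1 := hb ⟨x, hx⟩ ⟨y, hyy⟩ ((hGH _ _).2 hadj)
      have h2 : sd f y₁ x = true ↔ sd f y₁ y = true := by rw [hs]
      rw [sd_true hx, sd_true hyy] at h2
      apply h1
      rcases hf ⟨x, hx⟩ with h6 | h6 <;> rcases hf ⟨y, hyy⟩ with h7 | h7
      · rw [h6, h7]
      · exact absurd (h6.symm.trans (h2.2 h7)) hy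
      · exact absurd (h7.symm.trans (h2.1 h6)) hy
      · rw [h6, h7]
    · intro a b a₁ b₁ a₂ b₂ h h1 h2 hc1 hc2
      have key : ∀ a b a₁ b₁ : ℕ, ∀ (h : Ed H (Finset.range n) (sd f y₁) a b)
          (h1 : Ed H (Finset.range n) (sd f y₁) a₁ b₁), Cross (ps f y₁) a b a₁ b₁ →
          Crosses f (⟨a, Finset.mem_range.1 h.1⟩, ⟨b, Finset.mem_range.1 h.2.1⟩)
            (⟨a₁, Finset.mem_range.1 h1.1⟩, ⟨b₁, Finset.mem_range.1 h1.2.1⟩) := by
        intro a b a₁ b₁ h h1 hc
        have ha := Finset.mem_range.1 h.1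
        have hb' := Finset.mem_range.1 h.2.1
        have ha1 := Finset.mem_range.1 h1.1
        have hb1 := Finset.mem_range.1 h1.2.1
        obtain ⟨_, _, sa, sb, _⟩ := h
        obtain ⟨_, _, sa1, sb1, _⟩ := h1
        have ra : ∀ {x y : ℕ}, sd f y₁ x = sd f y₁ y → ps f y₁ x < ps f y₁ y → rk f x < rk f y := by
          intro x y h2 h3
          unfold ps at h3
          rw [h2] at h3
          omega
        have hgt : ∀ {x : ℕ} (hx : x < n), sd f y₁ x = true → (f ⟨x, hx⟩).2 = y₁ :=
          fun hx h => (sd_true hx).1 h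
        have hgf : ∀ {x : ℕ} (hx : x < n), sd f y₁ x = false → (f ⟨x, hx⟩).2 = y₀ := by
          intro x hx h
          rcases hf ⟨x, hx⟩ with h6 | h6
          · exact h6
          · have := (sd_true (f := f) hx).2 h6
            rw [h] at this
            exact absurd this (by decide)
        constructor
        · rintro (h2 | h2)
          · have h3 : a = a₁ := congrArg (fun e : Fin n × Fin n => e.1.val) h2
            subst h3
            rcases hc with ⟨h4, _⟩ | ⟨h4, _⟩ <;> exact absurd h4 (lt_irrefl _)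
          · have h3 : a = b₁ := congrArg (fun e : Fin n × Fin n => e.1.val) h2
            subst h3
            rw [sa] at sb1
            exact absurd sb1 (by decide)
        · refine real_meet (y₀ := y₀) (y₁ := y₁) (hgt ha sa) (hgf hb' sb) (hgt ha1 sa1)
            (hgf hb1 sb1) ?_
          rcases hc with ⟨h4, h5⟩ | ⟨h4, h5⟩
          · left
            exact ⟨(rk_lt ha ha1).1 (ra (by rw [sa, sa1]) h4),
              (rk_lt hb1 hb').1 (ra (by rw [sb, sb1]) h5)⟩
          · right
            exact ⟨(rk_lt ha1 ha).1 (ra (by rw [sa, sa1]) h4),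
              (rk_lt hb' hb1).1 (ra (by rw [sb, sb1]) h5)⟩
      have k1 := key a b a₁ b₁ h h1 hc1
      have k2 := key a b a₂ b₂ h h2 hc2
      have k3 := hI _ _ _ ((hGH _ _).2 h.2.2.2.2) ((hGH _ _).2 h1.2.2.2.2)
        ((hGH _ _).2 h2.2.2.2.2) k1 k2
      unfold NoCommon at k3
      by_contra hcon
      push Not at hcon
      apply k3
      refine ⟨fun h3 => hcon.1 (congrArg Fin.val h3), fun h3 => ?_, fun h3 => ?_,
        fun h3 => hcon.2 (congrArg Fin.val h3)⟩
      · have h4 : a₁ = b₂ := congrArg Fin.val h3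
        have h5 := h1.2.2.1
        rw [h4, h2.2.2.2.1] at h5
        exact absurd h5 (by decide)
      · have h4 : b₁ = a₂ := congrArg Fin.val h3
        have h5 := h1.2.2.2.1
        rw [h4, h2.2.2.1] at h5
        exact absurd h5 (by decide)
  · rintro ⟨side, p, hinj, hbip, hfan⟩
    set f : Fin n → ℝ × ℝ := fun v => ((p v : ℝ), if side v then 1 else 0) with hf
    have ft : ∀ v : Fin n, side v = true → (f v).2 = 1 := fun v h => by simp [hf, h]
    have fb : ∀ v : Fin n, side v = false → (f v).2 = 0 := fun v h => by simp [hf, h]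
    have finj : Function.Injective f := by
      intro u v h
      have h1 : (p u : ℝ) = p v := congrArg Prod.fst h
      exact Fin.ext (hinj u (Finset.mem_range.2 u.2) v (Finset.mem_range.2 v.2)
        (by exact_mod_cast h1))
    have norm : ∀ e : Fin n × Fin n, G.Adj e.1 e.2 → ∃ t b : Fin n, side t = true ∧
        side b = false ∧ H.Adj t b ∧ (e = (t, b) ∨ e = (b, t)) ∧
        openSegment ℝ (f e.1) (f e.2) = openSegment ℝ (f t) (f b) ∧
        segment ℝ (f e.1) (f e.2) = segment ℝ (f t) (f b) ∧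
        ∃ σ : ℝ, σ ≠ 0 ∧ (f e.2 - f e.1).1 = σ * ((f t).1 - (f b).1) ∧ (f e.2 - f e.1).2 = σ := by
      rintro ⟨u, v⟩ h
      simp only at h
      have h1 := (hGH u v).1 h
      have h2 := hbip u (Finset.mem_range.2 u.2) v (Finset.mem_range.2 v.2) h1
      cases hu : side u
      · have hv : side v = true := by
          rw [hu] at h2
          cases h3 : side v
          · exact absurd h3.symm h2
          · rfl
        refine ⟨v, u, hv, hu, h1.symm, Or.inr rfl, openSegment_symm _ _ _, segment_symm _ _ _,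
          1, one_ne_zero, ?_, ?_⟩
        · simp
        · simp [ft v hv, fb u hu]
      · have hv : side v = false := by
          rw [hu] at h2
          cases h3 : side v
          · rfl
          · exact absurd h3.symm h2
        refine ⟨u, v, hu, hv, h1, Or.inl rfl, rfl, rfl, -1, by norm_num, ?_, ?_⟩
        · simp
        · simp [ft u hu, fb v hv]
    -- two edges which meet in an inner point
    have hmeet : ∀ {t b t' b' : Fin n} {x : ℝ × ℝ}, side t = true → side b = false →
        side t' = true → side b' = false → x ∈ openSegment ℝ (f t) (f b) →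
        x ∈ openSegment ℝ (f t') (f b') → (t, b) ≠ (t', b') →
        Cross p t b t' b' ∧ x.2 * ((f t).1 - (f t').1) + (1 - x.2) * ((f b).1 - (f b').1) = 0 ∧
          0 < x.2 ∧ x.2 < 1 := by
      intro t b t' b' x h1 h2 h3 h4 h5 h6 hne
      obtain ⟨s, s0, s1, s2, s3⟩ := meet_real (zero_ne_one (α := ℝ)) (ft t h1) (fb b h2) (ft t' h3)
        (fb b' h4) h5 h6
      have s4 : x.2 = s := by rw [s2]; ring
      refine ⟨?_, by rw [s4]; exact s3, by rw [s4]; exact s0, by rw [s4]; exact s1⟩
      rcases real_cross s0 s1 s3 with ⟨h7, h8⟩ | ⟨h7, h8⟩ | ⟨h7, h8⟩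
      · left
        have h9 : (p t : ℝ) < p t' := by simpa [hf] using h7
        have h10 : (p b' : ℝ) < p b := by simpa [hf] using h8
        exact ⟨by exact_mod_cast h9, by exact_mod_cast h10⟩
      · right
        have h9 : (p t' : ℝ) < p t := by simpa [hf] using h7
        have h10 : (p b : ℝ) < p b' := by simpa [hf] using h8
        exact ⟨by exact_mod_cast h9, by exact_mod_cast h10⟩
      · exfalso
        apply hne
        have h9 : t = t' := finj (Prod.ext (by linarith) (by rw [ft t h1, ft t' h3]))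
        have h10 : b = b' := finj (Prod.ext (by linarith) (by rw [fb b h2, fb b' h4]))
        rw [h9, h10]
    have hED : ∀ {t b : Fin n}, side t = true → side b = false → H.Adj t b →
        Ed H (Finset.range n) side t b := fun {t b} h1 h2 h3 =>
      ⟨Finset.mem_range.2 t.2, Finset.mem_range.2 b.2, h1, h2, h3⟩
    have hsame : ∀ {e e' : Fin n × Fin n} {t b : Fin n}, (e = (t, b) ∨ e = (b, t)) →
        (e' = (t, b) ∨ e' = (b, t)) → SamePair e e' := by
      intro e e' t b h1 h2
      rcases h1 with rfl | rfl <;> rcases h2 with rfl | rfl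
      · left; rfl
      · right; rfl
      · right; rfl
      · left; rfl
    refine ⟨f, 0, 1, zero_ne_one, ?_, ?_, ⟨finj, ?_, ?_, ?_⟩, ?_, ?_⟩
    · intro v
      cases h : side v
      · left; exact fb v h
      · right; exact ft v h
    · intro u v h
      have h2 := hbip u (Finset.mem_range.2 u.2) v (Finset.mem_range.2 v.2) ((hGH u v).1 h)
      cases hu : side u <;> cases hv : side v
      · exact absurd (hu.trans hv.symm) h2
      · rw [fb u hu, ft v hv]; exact zero_ne_one
      · rw [ft u hu, fb v hv]; exact one_ne_zero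
      · exact absurd (hu.trans hv.symm) h2
    · -- avoid
      intro e he w hw
      obtain ⟨t, b, h1, h2, h3, h4, h5, h6, h7⟩ := norm e he
      rw [h5] at hw
      obtain ⟨s, s0, s1, s2, s3⟩ := mem_open.1 hw
      rw [ft t h1, fb b h2] at s3
      cases h : side w
      · rw [fb w h] at s3; linarith
      · rw [ft w h] at s3; linarith
    · -- meet
      intro e e' he he' hne x hx hx'
      obtain ⟨t, b, h1, h2, h3, h4, h5, h6, σ, h7, h8, h9⟩ := norm e he
      obtain ⟨t', b', h1', h2', h3', h4', h5', h6', σ', h7', h8', h9'⟩ := norm e' he'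
      rw [h6] at hx
      rw [h6'] at hx'
      obtain ⟨s, s0, s1, s2, s3⟩ := mem_closed.1 hx
      obtain ⟨s', s0', s1', s2', s3'⟩ := mem_closed.1 hx'
      rw [ft t h1, fb b h2] at s3
      rw [ft t' h1', fb b' h2'] at s3'
      have hss : s = s' := by linarith
      subst hss
      have he12 : ∀ w, (w = t ∨ w = b) → (w = e.1 ∨ w = e.2) := by
        intro w hw
        rcases h4 with rfl | rfl
        · exact hw
        · exact hw.symm
      have he12' : ∀ w, (w = t' ∨ w = b') → (w = e'.1 ∨ w = e'.2) := by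
        intro w hw
        rcases h4' with rfl | rfl
        · exact hw
        · exact hw.symm
      rcases s0.eq_or_lt with hs0 | hs0
      · left
        rw [← hs0] at s2 s2' s3
        have e1 : x = f b := Prod.ext (by rw [s2]; ring) (by rw [s3, fb b h2]; ring)
        have e2 : x = f b' := Prod.ext (by rw [s2']; ring) (by rw [s3, fb b' h2']; ring)
        have e3 : b = b' := finj (e1.symm.trans e2)
        exact ⟨b, he12 b (Or.inr rfl), he12' b (Or.inr e3), e1⟩
      · rcases s1.eq_or_lt with hs1 | hs1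
        · left
          rw [hs1] at s2 s2' s3
          have e1 : x = f t := Prod.ext (by rw [s2]; ring) (by rw [s3, ft t h1]; ring)
          have e2 : x = f t' := Prod.ext (by rw [s2']; ring) (by rw [s3, ft t' h1']; ring)
          have e3 : t = t' := finj (e1.symm.trans e2)
          exact ⟨t, he12 t (Or.inl rfl), he12' t (Or.inl e3), e1⟩
        · right
          refine ⟨⟨?_, ?_⟩, ?_⟩
          · rw [h5]
            exact mem_open.2 ⟨s, hs0, hs1, s2, by rw [s3, ft t h1, fb b h2]⟩
          · rw [h5']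
            exact mem_open.2 ⟨s, hs0, hs1, s2', by rw [s3, ft t' h1', fb b' h2']⟩
          · intro hcp
            unfold cp at hcp
            rw [h8, h9, h8', h9'] at hcp
            have k1 : σ * σ' * (((f t).1 - (f b).1) - ((f t').1 - (f b').1)) = 0 := by
              linear_combination hcp
            have k2 : ((f t).1 - (f b).1) - ((f t').1 - (f b').1) = 0 :=
              (mul_eq_zero.1 k1).resolve_left (mul_ne_zero h7 h7')
            have k3 : s * ((f t).1 - (f t').1) + (1 - s) * ((f b).1 - (f b').1) = 0 := by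
              linear_combination s2' - s2
            have k4 : (f t).1 = (f t').1 := by
              have : (f b).1 - (f b').1 = (f t).1 - (f t').1 := by linarith
              rw [this] at k3
              linarith
            have k5 : (f b).1 = (f b').1 := by linarith
            have k6 : t = t' := finj (Prod.ext k4 (by rw [ft t h1, ft t' h1']))
            have k7 : b = b' := finj (Prod.ext k5 (by rw [fb b h2, fb b' h2']))
            subst k6 k7
            exact hne (hsame h4 h4')
    · -- triple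
      rintro e e' e'' he he' he'' n1 n2 n3 x ⟨⟨m1, m2⟩, ⟨m3, m4⟩⟩
      obtain ⟨t, b, h1, h2, h3, h4, h5, h6, h7⟩ := norm e he
      obtain ⟨t', b', h1', h2', h3', h4', h5', h6', h7'⟩ := norm e' he'
      obtain ⟨t'', b'', h1'', h2'', h3'', h4'', h5'', h6'', h7''⟩ := norm e'' he''
      rw [h5] at m1
      rw [h5'] at m2
      rw [h5''] at m4
      have d1 : (t, b) ≠ (t', b') := by
        intro h
        rw [Prod.mk.injEq] at h
        obtain ⟨rfl, rfl⟩ := h
        exact n1 (hsame h4 h4')
      have d2 : (t, b) ≠ (t'', b'') := by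
        intro h
        rw [Prod.mk.injEq] at h
        obtain ⟨rfl, rfl⟩ := h
        exact n2 (hsame h4 h4'')
      have d3 : (t', b') ≠ (t'', b'') := by
        intro h
        rw [Prod.mk.injEq] at h
        obtain ⟨rfl, rfl⟩ := h
        exact n3 (hsame h4' h4'')
      obtain ⟨c1, _, _, _⟩ := hmeet h1 h2 h1' h2' m1 m2 d1
      obtain ⟨c2, _, _, _⟩ := hmeet h1 h2 h1'' h2'' m1 m4 d2
      obtain ⟨_, q3, q4, q5⟩ := hmeet h1' h2' h1'' h2'' m2 m4 d3
      have hor := hfan _ _ _ _ _ _ (hED h1 h2 h3) (hED h1' h2' h3') (hED h1'' h2'' h3'') c1 c2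
      apply d3
      rcases hor with h | h
      · have k1 : t' = t'' := Fin.ext h
        rw [k1, sub_self, mul_zero, zero_add] at q3
        have k2 : (f b').1 - (f b'').1 = 0 := (mul_eq_zero.1 q3).resolve_left (by linarith)
        have k3 : b' = b'' := finj (Prod.ext (by linarith) (by rw [fb b' h2', fb b'' h2'']))
        rw [k1, k3]
      · have k1 : b' = b'' := Fin.ext h
        rw [k1, sub_self, mul_zero, add_zero] at q3
        have k2 : (f t').1 - (f t'').1 = 0 := (mul_eq_zero.1 q3).resolve_left (by linarith)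
        have k3 : t' = t'' := finj (Prod.ext (by linarith) (by rw [ft t' h1', ft t'' h1'']))
        rw [k1, k3]
    · -- confI
      rintro e e₁ e₂ he he₁ he₂ ⟨n1, x, m1, m2⟩ ⟨n2, x', m3, m4⟩ hno
      obtain ⟨t, b, h1, h2, h3, h4, h5, h6, h7⟩ := norm e he
      obtain ⟨t', b', h1', h2', h3', h4', h5', h6', h7'⟩ := norm e₁ he₁
      obtain ⟨t'', b'', h1'', h2'', h3'', h4'', h5'', h6'', h7''⟩ := norm e₂ he₂
      rw [h5] at m1 m3
      rw [h5'] at m2
      rw [h5''] at m4
      have d1 : (t, b) ≠ (t', b') := by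
        intro h
        rw [Prod.mk.injEq] at h
        obtain ⟨rfl, rfl⟩ := h
        exact n1 (hsame h4 h4')
      have d2 : (t, b) ≠ (t'', b'') := by
        intro h
        rw [Prod.mk.injEq] at h
        obtain ⟨rfl, rfl⟩ := h
        exact n2 (hsame h4 h4'')
      obtain ⟨c1, _, _, _⟩ := hmeet h1 h2 h1' h2' m1 m2 d1
      obtain ⟨c2, _, _, _⟩ := hmeet h1 h2 h1'' h2'' m3 m4 d2
      have hor := hfan _ _ _ _ _ _ (hED h1 h2 h3) (hED h1' h2' h3') (hED h1'' h2'' h3'') c1 c2
      obtain ⟨k1, k2, k3, k4⟩ := hno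
      rcases hor with h | h
      · have k5 : t' = t'' := Fin.ext h
        subst k5
        rcases h4' with rfl | rfl <;> rcases h4'' with rfl | rfl
        · exact k1 rfl
        · exact k2 rfl
        · exact k3 rfl
        · exact k4 rfl
      · have k5 : b' = b'' := Fin.ext h
        subst k5
        rcases h4' with rfl | rfl <;> rcases h4'' with rfl | rfl
        · exact k4 rfl
        · exact k3 rfl
        · exact k2 rfl
        · exact k1 rfl
    · -- confII
      rintro e u v w he huv huw ⟨_, x, m1, m2⟩ ⟨_, x', m3, m4⟩ ⟨q1, q2⟩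
      obtain ⟨l, l0, l1⟩ := conf2 m1 m2
      obtain ⟨l', l0', l1'⟩ := conf2 m3 m4
      have k1 : l * cp (f e.2 - f e.1) (f v - f u) < 0 := mul_neg_of_pos_of_neg l0 q1
      have k2 : 0 < l' * cp (f e.2 - f e.1) (f w - f u) := mul_pos l0' q2
      rw [l1] at k1
      rw [l1'] at k2
      linarith

end Pool.Agent.N160.FPgeo
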