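import Pool.Agent.N208.LC.Stm4
import Pool.Agent.N75.LCBR

set_option autoImplicit false

/-!
# Project LC: from words to multilinear forms, all degrees
-/

open Module

noncomputable section

namespace Pool.Agent.N160.LCBRG

open Pool.Agent.N208.LC
open Pool.Agent.N75.LCBR (opX_basis opX_E co upd wt_eq Psi Psi_apply Mp Mp_apply)

variable {P N : ℕ} {T ι V : Type} [Fintype T] [DecidableEq T] [Fintype ι] [DecidableEq ι]
  [AddCommGroup V] [Module ℂ V]

theorem opX_D1 (e : Basis (Ix N T) ℂ V) (pl : T → Fin P) (b : Fin P) (p : Fin N) (i : Ix N T) :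
    opX e pl b (Matrix.diagonal fun r => if r = p then (1 : ℂ) else 0) (e i) =
      co pl b p i • e i := by
  obtain ⟨s, r, t⟩ := i
  rw [opX_basis]
  unfold co
  simp only
  by_cases hb : pl t = b
  · rw [if_pos hb]
    cases s
    · rw [if_neg (by simp)]
      rw [Finset.sum_eq_single r]
      · rw [Matrix.diagonal_apply_eq, ← neg_smul]
        congr 1
        simp [hb]
      · intro j _ hj
        rw [Matrix.diagonal_apply_ne _ (Ne.symm hj), zero_smul]
      · exact fun h => absurd (Finset.mem_univ _) h
    · rw [if_pos (by rfl)]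
      rw [Finset.sum_eq_single r]
      · rw [Matrix.diagonal_apply_eq]
        congr 1
        simp [hb]
      · intro j _ hj
        rw [Matrix.diagonal_apply_ne _ hj, zero_smul]
      · exact fun h => absurd (Finset.mem_univ _) h
  · simp [hb]

theorem inv (pl : T → Fin P) (e : Basis (Ix N T) ℂ V)
    (φ : MultilinearMap ℂ (fun _ : ι => V) ℂ)
    (h : ∀ b x, Kil (opX e pl b x) φ) : Inv pl (fun I => φ (fun k => e (I k))) := by
  refine ⟨fun I hI => fun b p => ?_, fun b p q hpq I => ?_⟩
  · have h1 := h b (Matrix.diagonal fun r => if r = p then (1 : ℂ) else 0) (fun k => e (I k))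
    have h2 : ∀ j : ι, φ (Function.update (fun k => e (I k)) j (opX e pl b
        (Matrix.diagonal fun r => if r = p then (1 : ℂ) else 0)
          (e (I j)))) = co pl b p (I j) * φ (fun k => e (I k)) := by
      intro j
      rw [opX_D1, MultilinearMap.map_update_smul, smul_eq_mul, upd, Function.update_eq_self]
    rw [Finset.sum_congr rfl fun j _ => h2 j, ← Finset.sum_mul, ← wt_eq] at h1
    rcases mul_eq_zero.1 h1 with h3 | h3
    · rwa [Int.cast_eq_zero] at h3
    · exact absurd h3 hI
  · have h1 := h b (Matrix.of fun i j => if i = q ∧ j = p then (1 : ℂ) else 0) (fun k => e (I k))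
    have h2 : ∀ j : ι, φ (Function.update (fun k => e (I k)) j (opX e pl b
        (Matrix.of fun i j => if i = q ∧ j = p then (1 : ℂ) else 0) (e (I j)))) =
        (if (I j).1 = true ∧ (I j).2.1 = p ∧ pl (I j).2.2 = b then
          φ (fun k => e (Function.update I j (true, q, (I j).2.2) k)) else 0) -
        (if (I j).1 = false ∧ (I j).2.1 = q ∧ pl (I j).2.2 = b then
          φ (fun k => e (Function.update I j (false, p, (I j).2.2) k)) else 0) := by
      intro j
      rw [opX_E, MultilinearMap.map_update_sub]
      congr 1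
      · split_ifs
        · rw [upd]
        · exact MultilinearMap.map_update_zero _ _ _
      · split_ifs
        · rw [upd]
        · exact MultilinearMap.map_update_zero _ _ _
    rw [Finset.sum_congr rfl fun j _ => h2 j, Finset.sum_sub_distrib, sub_eq_zero] at h1
    rw [Finset.sum_filter, Finset.sum_filter]
    exact h1

theorem main : Pool.Agent.N208.LC.S_COREG → Pool.Agent.N208.LC.S_BRG := by
  intro hC P N k T ι V _ _ _ _ _ _ pl e hc φ h
  have hI := inv pl e φ h
  have h1 := hC P N k T ι pl hc _ hI
  have h2 : Mp e (fun I => φ (fun k => e (I k))) = φ := by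
    refine Basis.ext_multilinear (fun _ => e) fun J => ?_
    exact Mp_apply e _ J
  rw [← h2]
  have h3 := Submodule.mem_map_of_mem (f := Mp (ι := ι) e) h1
  rw [Submodule.map_span] at h3
  refine Submodule.span_mono ?_ h3
  rintro _ ⟨G, ⟨ε, d, hd, hG⟩, rfl⟩
  refine ⟨ε, fun i => e.constr ℂ fun x => e.constr ℂ fun y => d i x y, ?_, ?_⟩
  · intro i
    obtain ⟨s, t, t', htt, hdi⟩ := hd i
    refine ⟨s, t, t', htt, fun x y => ?_⟩
    rw [← hdi x y, Basis.constr_basis, Basis.constr_basis]
  · intro v
    rw [← Psi_apply]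
    congr 1
    refine Basis.ext_multilinear (fun _ => e) fun J => ?_
    rw [Mp_apply, Psi_apply, hG]
    refine Finset.prod_congr rfl fun i _ => ?_
    rw [Basis.constr_basis, Basis.constr_basis]

end Pool.Agent.N160.LCBRG
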