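import Pool.Agent.N180.ZlH

/-!
# Task ZL/F7 (project of helper180 on MP_f569db_ag): from multilinear forms to families of tensors
-/

open Module Function

set_option linter.unusedSectionVars false

namespace Pool.Agent.N160.ZlFam

open Pool.Agent.N180.Zl Pool.Agent.N180.Cf Pool.Agent.R908.Km Pool.Agent.R908.Km.FIdeal

variable {K : Type*} [Field K] {V : Type*} [AddCommGroup V] [Module K V] {b : ℕ}

section Contr

variable {F : ∀ m : ℕ, Submodule K ((Fin m → V) → K)} {β γ : Fin b → V}

/-- Contraction of two variables. -/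
lemma FFs_contr (hp : PermSt F)
    (hc : ∀ (m : ℕ) (f : (Fin (m + 2) → V) → K), f ∈ F (m + 2) →
      (fun v : Fin m → V => ∑ i, f (Fin.cons (γ i) (Fin.cons (β i) v : Fin (m + 1) → V) :
        Fin (m + 2) → V)) ∈ F m)
    {S : Type} [Finite S] {f : (Option (Option S) → V) → K}
    (hf : f ∈ FFs F (Option (Option S))) :
    (fun v : S → V => ∑ i, f (oo (γ i) (β i) v)) ∈ FFs F S := by
  classical
  obtain ⟨m, ⟨e'⟩⟩ := Finite.exists_equiv_fin S
  set e := e'.symm
  rw [mem_FFs hp e]
  have h1 := hc _ _ (hf (m + 2) (e2 e))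
  have h2 : ∀ (x y : V) (v : Fin m → V),
      ((Fin.cons x (Fin.cons y v : Fin (m + 1) → V) : Fin (m + 2) → V) ∘ (e2 e).symm) =
        oo x y (v ∘ e.symm) := by
    intro x y v
    funext o
    rcases o with _ | o
    · rw [Function.comp_apply, e2_none]
      rfl
    · rcases o with _ | s
      · rw [Function.comp_apply, e2_some_none]
        rfl
      · rw [Function.comp_apply, e2_some_some]
        rfl
  simp only [h2] at h1
  exact h1

/-- The swap of the two additional variables. -/
def swp (S : Type) : Option (Option S) ≃ Option (Option S) where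
  toFun := fun o => match o with
    | none => some none
    | some none => none
    | some (some s) => some (some s)
  invFun := fun o => match o with
    | none => some none
    | some none => none
    | some (some s) => some (some s)
  left_inv := by rintro (_ | _ | s) <;> rfl
  right_inv := by rintro (_ | _ | s) <;> rfl

lemma FFs_contr' (hp : PermSt F)
    (hc : ∀ (m : ℕ) (f : (Fin (m + 2) → V) → K), f ∈ F (m + 2) →
      (fun v : Fin m → V => ∑ i, f (Fin.cons (γ i) (Fin.cons (β i) v : Fin (m + 1) → V) :
        Fin (m + 2) → V)) ∈ F m)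
    {S : Type} [Finite S] {f : (Option (Option S) → V) → K}
    (hf : f ∈ FFs F (Option (Option S))) :
    (fun v : S → V => ∑ i, f (oo (β i) (γ i) v)) ∈ FFs F S := by
  have h1 := FFs_contr hp hc (FFs_reindex (swp S) hf)
  have h2 : ∀ (i : Fin b) (v : S → V), oo (γ i) (β i) v ∘ swp S = oo (β i) (γ i) v := by
    intro i v
    funext o
    rcases o with _ | _ | s <;> rfl
  simp only [h2] at h1
  exact h1

/-- The complete contraction. -/
lemma full_contr_fin (hp : PermSt F)
    (hc : ∀ (m : ℕ) (f : (Fin (m + 2) → V) → K), f ∈ F (m + 2) →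
      (fun v : Fin m → V => ∑ i, f (Fin.cons (γ i) (Fin.cons (β i) v : Fin (m + 1) → V) :
        Fin (m + 2) → V)) ∈ F m)
    (hz : ∀ f ∈ F 0, f = 0) :
    ∀ (m : ℕ) (f : (Fin m ⊕ Fin m → V) → K), f ∈ FFs F (Fin m ⊕ Fin m) →
      ∑ I : Fin m → Fin b, f (Sum.elim (fun s => γ (I s)) (fun s => β (I s))) = 0 := by
  intro m
  induction m with
  | zero =>
    intro f hf
    have h1 := hz _ (hf 0 (Equiv.equivOfIsEmpty (Fin 0) (Fin 0 ⊕ Fin 0)))
    apply Finset.sum_eq_zero
    intro I _
    have h2 := congrFun h1 (fun s => s.elim0)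
    change f _ = 0 at h2
    rw [← h2]
    congr 1
    funext s
    rcases s with s | s <;> exact s.elim0
  | succ m ih =>
    intro f hf
    have h1 := FFs_contr hp hc (FFs_reindex (eC m).symm hf)
    have h2 := ih _ h1
    rw [← h2, ← (Fin.consEquiv fun _ => Fin b).sum_comp, Fintype.sum_prod_type, Finset.sum_comm]
    refine Finset.sum_congr rfl fun I _ => Finset.sum_congr rfl fun i _ => ?_
    congr 1
    funext s
    rcases s with s | s
    · refine Fin.cases ?_ (fun j => ?_) s <;> rfl
    · refine Fin.cases ?_ (fun j => ?_) s <;> rfl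

lemma full_contr (hp : PermSt F)
    (hc : ∀ (m : ℕ) (f : (Fin (m + 2) → V) → K), f ∈ F (m + 2) →
      (fun v : Fin m → V => ∑ i, f (Fin.cons (γ i) (Fin.cons (β i) v : Fin (m + 1) → V) :
        Fin (m + 2) → V)) ∈ F m)
    (hz : ∀ f ∈ F 0, f = 0) {S : Type} [Fintype S] [DecidableEq S] {f : (S ⊕ S → V) → K}
    (hf : f ∈ FFs F (S ⊕ S)) :
    ∑ I : S → Fin b, f (Sum.elim (fun s => γ (I s)) (fun s => β (I s))) = 0 := by
  set e := Fintype.equivFin S with he
  have h1 := full_contr_fin (β := β) (γ := γ) hp hc hz _ _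
    (FFs_reindex (Equiv.sumCongr e e) hf)
  rw [← h1, ← (Equiv.arrowCongr e (Equiv.refl (Fin b))).symm.sum_comp]
  refine Finset.sum_congr rfl fun I _ => ?_
  congr 1
  funext s
  rcases s with s | s <;> rfl

end Contr

section Coord

variable (β γ : Fin b → V)

/-- The coordinates. -/
def cr {S : Type} (ε : S → Bool) : ((S → V) → K) →ₗ[K] ((S → Fin b) → K) where
  toFun := fun f I => f (fun s => bv β γ (ε s) (I s))
  map_add' := fun _ _ => rfl
  map_smul' := fun _ _ => rfl

lemma cr_apply {S : Type} (ε : S → Bool) (f : (S → V) → K) (I : S → Fin b) :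
    cr β γ ε f I = f (fun s => bv β γ (ε s) (I s)) := rfl

variable {β γ} {ψ : V →ₗ[K] V →ₗ[K] K}

lemma cr_inj (h : DualP ψ β γ) {S : Type} [Fintype S] [DecidableEq S] (ε : S → Bool)
    {f : (S → V) → K}
    (hf : ∃ g : MultilinearMap K (fun _ : S => V) K, ∀ v, g v = f v)
    (h0 : cr β γ ε f = 0) : f = 0 := by
  obtain ⟨g, hg⟩ := hf
  funext w
  have h1 : w = fun s => ∑ q, (if ε s then ψ (γ q) (w s) else ψ (w s) (β q)) •
      bv β γ (ε s) q := by
    funext s
    by_cases hs : ε s
    · simp only [if_pos hs, bv]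
      exact h.exp_b (w s)
    · simp only [if_neg hs, bv]
      exact h.exp_c (w s)
  rw [← hg, h1, g.map_sum, Pi.zero_apply]
  apply Finset.sum_eq_zero
  intro J _
  rw [g.map_smul_univ, hg]
  have h2 := congrFun h0 J
  rw [cr_apply, Pi.zero_apply] at h2
  rw [h2, smul_zero]

end Coord

section Family

variable {ψ : V →ₗ[K] V →ₗ[K] K} {κ : V →ₗ[K] V} {β γ : Fin b → V}
  {G F : ∀ m : ℕ, Submodule K ((Fin m → V) → K)}

/-- The family of tensors. -/
def fam (h : FamD ψ κ β γ G F) : TFam K (Fin b) where
  C := fun {S} ε => (FFs G S).map (cr β γ ε)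
  reindex := by
    rintro S S' _ _ e ε z ⟨f, hf, rfl⟩
    exact ⟨_, FFs_reindex e hf, rfl⟩
  mul := by
    rintro S S' _ _ ε ε' z w ⟨f, hf, rfl⟩ ⟨g, hg, rfl⟩
    exact ⟨_, FFs_mul h.perm h.mul hf hg, rfl⟩
  ctr := by
    rintro S _ ε z hε ⟨f, hf, rfl⟩
    by_cases h0 : ε none = true
    · have h1 : ε (some none) = false := by
        cases h2 : ε (some none)
        · rfl
        · exact absurd (h0.trans h2.symm) hε
      refine ⟨_, FFs_contr' h.perm h.contr hf, ?_⟩
      funext I
      rw [cr_apply]
      refine Finset.sum_congr rfl fun i _ => ?_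
      rw [cr_apply]
      congr 1
      funext o
      rcases o with _ | _ | s
      · change β i = bv β γ (ε none) i
        rw [h0]
        rfl
      · change γ i = bv β γ (ε (some none)) i
        rw [h1]
        rfl
      · rfl
    · have h0' : ε none = false := by simpa using h0
      have h1 : ε (some none) = true := by
        cases h2 : ε (some none)
        · exact absurd (h0'.trans h2.symm) hε
        · rfl
      refine ⟨_, FFs_contr h.perm h.contr hf, ?_⟩
      funext I
      rw [cr_apply]
      refine Finset.sum_congr rfl fun i _ => ?_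
      rw [cr_apply]
      congr 1
      funext o
      rcases o with _ | _ | s
      · change γ i = bv β γ (ε none) i
        rw [h0']
        rfl
      · change β i = bv β γ (ε (some none)) i
        rw [h1]
        rfl
      · rfl
  delta := by
    refine ⟨fun v => ψ (v false) (v true), ?_, ?_⟩
    · change _ ∈ FFs G Bool
      rw [mem_FFs h.perm finTwoEquiv]
      have h1 := h.ins 0 _ h.one
      simp only [mul_one] at h1
      exact h1
    · funext I
      rw [cr_apply]
      exact h.dual.delta _ _
  unit := by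
    intro ε
    refine ⟨fun _ => 1, ?_, rfl⟩
    change _ ∈ FFs G Empty
    rw [mem_FFs h.perm (Equiv.equivOfIsEmpty (Fin 0) Empty)]
    exact h.one

lemma fam_C (h : FamD ψ κ β γ G F) {S : Type} (ε : S → Bool) :
    (fam h).C ε = (FFs G S).map (cr β γ ε) := rfl

/-- Application of `κ` to the variables of kind `true`. -/
lemma kap_mem {F : ∀ m : ℕ, Submodule K ((Fin m → V) → K)} (hv : VarS F κ) {S : Type} [Fintype S]
    [DecidableEq S] (ε : S → Bool) {f : (S → V) → K} (hf : f ∈ FFs F S) :
    (fun v : S → V => f (fun s => if ε s then κ (v s) else v s)) ∈ FFs F S := by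
  have key : ∀ T : Finset S, (fun v : S → V => f (fun s => if s ∈ T then κ (v s) else v s)) ∈
      FFs F S := by
    intro T
    induction T using Finset.induction_on with
    | empty =>
      simpa using hf
    | insert a T ha ih =>
      have h1 := hv.ff ih a
      have h2 : (fun v : S → V => f (fun s => if s ∈ insert a T then κ (v s) else v s)) =
          fun v : S → V => (fun v : S → V => f (fun s => if s ∈ T then κ (v s) else v s))
            (update v a (κ (v a))) := by
        funext v
        beta_reduce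
        congr 1
        funext s
        by_cases hs : s = a
        · subst hs
          rw [if_pos (Finset.mem_insert_self _ _), if_neg ha, update_self]
        · rw [update_of_ne hs]
          by_cases hT : s ∈ T
          · rw [if_pos (Finset.mem_insert_of_mem hT), if_pos hT]
          · rw [if_neg (fun h3 => (Finset.mem_insert.1 h3).elim hs hT), if_neg hT]
      rw [h2]
      exact h1
  have h3 := key (Finset.univ.filter fun s => ε s = true)
  simpa using h3

/-- The exchange of the bases. -/
lemma exch_sum (h : FamD ψ κ β γ G F) {S : Type} [Fintype S] [DecidableEq S] (ε : S → Bool)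
    {f g : (S → V) → K}
    (hf : ∃ f' : MultilinearMap K (fun _ : S => V) K, ∀ v, f' v = f v)
    (hg : ∃ g' : MultilinearMap K (fun _ : S => V) K, ∀ v, g' v = g v) :
    ∑ I : S → Fin b, cr β γ ε f I * cr β γ (fun s => !(ε s)) g I =
      ∑ J : S → Fin b, f (fun s => γ (J s)) *
        g (fun s => if ε s then κ (β (J s)) else β (J s)) := by
  obtain ⟨f', hf'⟩ := hf
  obtain ⟨g', hg'⟩ := hg
  set A : S → Fin b → Fin b → K := fun s i j =>
    if ε s then ψ (β i) (β j) else if i = j then 1 else 0 with hA
  have h1 : ∀ I : S → Fin b, f (fun s => bv β γ (ε s) (I s)) =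
      ∑ J : S → Fin b, (∏ s, A s (I s) (J s)) * f (fun s => γ (J s)) := by
    intro I
    have h2 : (fun s => bv β γ (ε s) (I s)) = fun s => ∑ j, A s (I s) j • γ j := by
      funext s
      by_cases hs : ε s
      · simp only [bv, hA, if_pos hs]
        exact h.dual.exp_c _
      · simp only [bv, hA, if_neg hs]
        simp
    rw [← hf', h2, f'.map_sum]
    refine Finset.sum_congr rfl fun J _ => ?_
    rw [f'.map_smul_univ, hf', smul_eq_mul]
  have h3 : ∀ J : S → Fin b, g (fun s => if ε s then κ (β (J s)) else β (J s)) =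
      ∑ I : S → Fin b, (∏ s, A s (I s) (J s)) * g (fun s => bv β γ (!(ε s)) (I s)) := by
    intro J
    have h2 : (fun s => if ε s then κ (β (J s)) else β (J s)) =
        fun s => ∑ i, A s i (J s) • bv β γ (!(ε s)) i := by
      funext s
      by_cases hs : ε s
      · have hs' : (!(ε s)) = false := by rw [hs]; rfl
        simp only [bv, hA, if_pos hs, hs']
        conv_lhs => rw [h.dual.exp_c (κ (β (J s)))]
        refine Finset.sum_congr rfl fun i _ => ?_
        rw [h.adj, ← h.comm]
        rfl
      · have hs' : (!(ε s)) = true := by simpa using hs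
        simp only [bv, hA, if_neg hs, hs']
        simp
    rw [← hg', h2, g'.map_sum]
    refine Finset.sum_congr rfl fun I _ => ?_
    rw [g'.map_smul_univ, hg', smul_eq_mul]
  simp only [cr_apply, h1, h3, Finset.sum_mul, Finset.mul_sum]
  rw [Finset.sum_comm]
  refine Finset.sum_congr rfl fun J _ => Finset.sum_congr rfl fun I _ => ?_
  ring

/-- The permutation exchanging the variables of kind `true`. -/
def sw {S : Type} (ε : S → Bool) : S ⊕ S ≃ S ⊕ S where
  toFun := fun t => match t with
    | Sum.inl s => if ε s then Sum.inr s else Sum.inl s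
    | Sum.inr s => if ε s then Sum.inl s else Sum.inr s
  invFun := fun t => match t with
    | Sum.inl s => if ε s then Sum.inr s else Sum.inl s
    | Sum.inr s => if ε s then Sum.inl s else Sum.inr s
  left_inv := by
    rintro (s | s)
    · by_cases hs : ε s <;> simp [hs]
    · by_cases hs : ε s <;> simp [hs]
  right_inv := by
    rintro (s | s)
    · by_cases hs : ε s <;> simp [hs]
    · by_cases hs : ε s <;> simp [hs]

/-- **The negligible tensors.** -/
lemma mem_Nn (h : FamD ψ κ β γ G F) {S : Type} [Fintype S] [DecidableEq S] (ε : S → Bool)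
    {f : (S → V) → K} (hf : f ∈ FFs G S) : cr β γ ε f ∈ (fam h).Nn ε ↔ f ∈ FFs F S := by
  constructor
  · intro hN
    set e := (Fintype.equivFin S).symm with he
    rw [mem_FFs h.permF e]
    refine h.nd _ _ (hf _ e) (fun g hg => ?_)
    -- the form `g` on `S`
    set g₁ : (S → V) → K := fun v => g (v ∘ e) with hg₁
    have hg₁G : g₁ ∈ FFs G S := by
      rw [mem_FFs h.perm e]
      have h1 : (fun v : Fin (Fintype.card S) → V => g₁ (v ∘ e.symm)) = g := by
        funext v
        rw [hg₁]
        beta_reduce
        congr 1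
        funext s
        simp
      rw [h1]
      exact hg
    have h2 := kap_mem h.var ε hg₁G
    have h3 := hN _ ⟨_, h2, rfl⟩
    rw [exch_sum h ε (FFs_multi h.multi hf) (FFs_multi h.multi h2)] at h3
    rw [← h3, ← (Equiv.arrowCongr e (Equiv.refl (Fin b))).sum_comp]
    refine Finset.sum_congr rfl fun I _ => ?_
    congr 1
    rw [hg₁]
    beta_reduce
    congr 1
    funext s
    rw [Function.comp_apply]
    by_cases hs : ε (e s)
    · rw [if_pos hs, if_pos hs, h.sq]
      simp
    · rw [if_neg hs, if_neg hs]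
      simp
  · rintro hF w ⟨g, hg, rfl⟩
    have h1 := FFs_mul h.permF h.mulF hF hg
    have h2 := full_contr (β := β) (γ := γ) h.permF h.contrF h.zeroF
      (FFs_reindex (sw ε) h1)
    rw [← h2]
    refine Finset.sum_congr rfl fun I _ => ?_
    rw [cr_apply, cr_apply]
    congr 2
    · funext s
      by_cases hs : ε s <;> simp [hs, sw, bv]
    · funext s
      by_cases hs : ε s <;> simp [hs, sw, bv]

lemma finrank_FFs (hp : PermSt F) (S : Type) [Fintype S] :
    finrank K (FFs F S) = finrank K (F (Fintype.card S)) := by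
  classical
  set e := (Fintype.equivFin S).symm with he
  set T : ((S → V) → K) ≃ₗ[K] ((Fin (Fintype.card S) → V) → K) :=
    LinearEquiv.funCongrLeft K K (Equiv.arrowCongr e (Equiv.refl V)) with hT
  have h1 : (FFs F S).map T.toLinearMap = F (Fintype.card S) := by
    ext g
    constructor
    · rintro ⟨f, hf, rfl⟩
      exact hf _ e
    · intro hg
      refine ⟨fun v => g (v ∘ e), ?_, ?_⟩
      · change _ ∈ FFs F S
        rw [mem_FFs hp e]
        have h2 : (fun v : Fin (Fintype.card S) → V => g ((v ∘ e.symm) ∘ e)) = g := by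
          funext v
          congr 1
          funext s
          simp
        rw [h2]
        exact hg
      · funext v
        change g (((Equiv.arrowCongr e (Equiv.refl V)) v) ∘ e) = g v
        congr 1
        funext s
        simp
  rw [← h1]
  exact (LinearEquiv.submoduleMap T (FFs F S)).finrank_eq

lemma finrank_map_cr (h : DualP ψ β γ) (hm : MultiSt F) {S : Type} [Fintype S] [DecidableEq S]
    (ε : S → Bool) : finrank K ((FFs F S).map (cr β γ ε)) = finrank K (FFs F S) := by
  have h1 : Function.Injective ((cr β γ ε).domRestrict (FFs F S)) := by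
    rw [← LinearMap.ker_eq_bot, eq_bot_iff]
    intro x hx
    rw [LinearMap.mem_ker, LinearMap.domRestrict_apply] at hx
    rw [Submodule.mem_bot]
    exact Subtype.ext (cr_inj h ε (FFs_multi hm x.2) hx)
  have h2 := (LinearEquiv.ofInjective _ h1).finrank_eq
  rw [LinearMap.range_domRestrict] at h2
  exact h2.symm

theorem fam_main (ψ : V →ₗ[K] V →ₗ[K] K) (κ : V →ₗ[K] V) (β γ : Fin b → V)
    (G F : ∀ m : ℕ, Submodule K ((Fin m → V) → K)) : S_fam ψ κ β γ G F := by
  intro h
  have hmF : MultiSt F := fun m f hf => h.multi m f (h.le m hf)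
  have hFG : ∀ S : Type, FFs F S ≤ FFs G S := fun S f hf m e => h.le m (hf m e)
  have hval : ∀ {S : Type} [Fintype S] (ε : S → Bool) (f : (S → V) → K) (I : S → Fin b),
      ∃ e : Fin (Fintype.card S) ≃ S, ∀ w : Fin b → ℝ, wt w (ε ∘ e) (I ∘ e) = wt w ε I := by
    intro S _ ε f I
    refine ⟨(Fintype.equivFin S).symm, fun w => ?_⟩
    exact (Fintype.equivFin S).symm.sum_comp (fun s => if ε s then w (I s) else - w (I s))
  refine ⟨fam h, ?_, ?_, ?_, ?_⟩
  · intro S _ ε
    classical
    rw [fam_C, finrank_map_cr h.dual h.multi, finrank_FFs h.perm]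
  · intro S _ _ ε
    have h1 := nr_add ((fam h).C ε) ((fam h).Nn ε)
    have h2 : (fam h).C ε ⊓ (fam h).Nn ε = (FFs F S).map (cr β γ ε) := by
      ext z
      constructor
      · rintro ⟨⟨f, hf, rfl⟩, hN⟩
        exact ⟨f, (mem_Nn h ε hf).1 hN, rfl⟩
      · rintro ⟨f, hf, rfl⟩
        exact ⟨⟨f, hFG _ hf, rfl⟩, (mem_Nn h ε (hFG _ hf)).2 hf⟩
    rw [h2, finrank_map_cr h.dual hmF, finrank_FFs h.permF, fam_C,
      finrank_map_cr h.dual h.multi, finrank_FFs h.perm] at h1
    exact h1
  · intro w N hG hF
    constructor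
    · rintro S _ ε hc z ⟨f, hf, rfl⟩ I hI
      obtain ⟨e, he⟩ := hval ε f I
      rw [← he]
      refine hG _ hc _ (hf _ e) _ _ ?_
      rw [cr_apply] at hI
      have h1 : (fun s => bv β γ ((ε ∘ e) s) ((I ∘ e) s)) ∘ e.symm =
          fun s => bv β γ (ε s) (I s) := by
        funext s
        simp
      rw [h1]
      exact hI
    · rintro S _ _ ε hc z ⟨f, hf, rfl⟩ hN I hI
      obtain ⟨e, he⟩ := hval ε f I
      rw [← he]
      refine hF _ hc _ ((mem_Nn h ε hf).1 hN _ e) _ _ ?_
      rw [cr_apply] at hI
      have h1 : (fun s => bv β γ ((ε ∘ e) s) ((I ∘ e) s)) ∘ e.symm =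
          fun s => bv β γ (ε s) (I s) := by
        funext s
        simp
      rw [h1]
      exact hI
  · intro m hm
    obtain ⟨f, hf, hf0⟩ := (Submodule.ne_bot_iff _).1 hm
    have hfF : f ∈ FFs F (Fin m) := by
      rw [mem_FFs h.permF (Equiv.refl _)]
      exact hf
    refine ⟨cr β γ (fun _ => true) f, ⟨f, hFG _ hfF, rfl⟩, (mem_Nn h _ (hFG _ hfF)).2 hfF, ?_⟩
    intro h0
    exact hf0 (cr_inj h.dual _ (FFs_multi hmF hfF) h0)

end Family

end Pool.Agent.N160.ZlFam
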