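import Pool.Agent.N180.ZlF

/-!
# Task ZL/F6 (project of helper180 on MP_f569db_ag): corners, weights and partial traces
-/

open Module Matrix

set_option linter.unusedSectionVars false

namespace Pool.Agent.N160.ZlGr

open Pool.Agent.N180.Zl

section Corner

variable {K : Type*} [Field K] {Ω : Type*} [Fintype Ω] [DecidableEq Ω]

/-- The trace on a subalgebra. -/
def sTr (A : Subalgebra K (Matrix Ω Ω K)) : A →ₗ[K] K :=
  Matrix.traceLinearMap Ω K K ∘ₗ A.val.toLinearMap

lemma sTr_apply (A : Subalgebra K (Matrix Ω Ω K)) (x : A) : sTr A x = x.1.trace := rfl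

lemma sTr_isTr [CharZero K] (A : Subalgebra K (Matrix Ω Ω K)) : IsTr (sTr A) where
  symm := fun x y => by
    rw [sTr_apply, sTr_apply]
    exact trace_mul_comm _ _
  nil := by
    rintro x ⟨n, hn⟩
    rw [sTr_apply]
    have h1 : IsNilpotent x.1 := ⟨n, by rw [← Subalgebra.coe_pow, hn]; rfl⟩
    exact (Matrix.isNilpotent_trace_of_isNilpotent h1).eq_zero
  conv := by
    intro x hx
    have h1 : IsNilpotent (Matrix.toLin' x.1) := by
      apply Pool.Agent.TH623.SA.isNilpotent_of_trace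
      intro m hm
      have h2 : (Matrix.toLin' x.1) ^ m = Matrix.toLin' (x.1 ^ m) := by
        rw [Matrix.toLin'_pow]
      rw [h2, Matrix.trace_toLin'_eq]
      exact hx m hm
    obtain ⟨n, hn⟩ := h1
    refine ⟨n, Subtype.ext ?_⟩
    rw [← Matrix.toLin'_pow] at hn
    rw [Subalgebra.coe_pow]
    exact (LinearEquiv.map_eq_zero_iff Matrix.toLin').1 hn

/-- The algebra `K 1 + e R e`. -/
def cAlg (R : Submodule K (Matrix Ω Ω K)) (hmul : ∀ x ∈ R, ∀ y ∈ R, x * y ∈ R)
    (e : Matrix Ω Ω K) : Subalgebra K (Matrix Ω Ω K) where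
  carrier := {X | ∃ (c : K) (x : Matrix Ω Ω K), x ∈ R ∧ e * x = x ∧ x * e = x ∧ X = c • 1 + x}
  mul_mem' := by
    rintro _ _ ⟨c, x, hx, hx1, hx2, rfl⟩ ⟨d, y, hy, hy1, hy2, rfl⟩
    refine ⟨c * d, c • y + d • x + x * y, R.add_mem (R.add_mem (R.smul_mem c hy)
      (R.smul_mem d hx)) (hmul x hx y hy), ?_, ?_, ?_⟩
    · rw [mul_add, mul_add, mul_smul_comm, mul_smul_comm, hx1, hy1, ← mul_assoc, hx1]
    · rw [add_mul, add_mul, smul_mul_assoc, smul_mul_assoc, hx2, hy2, mul_assoc, hy2]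
    · rw [add_mul, mul_add, mul_add, smul_mul_assoc, smul_mul_assoc, one_mul, one_mul,
        mul_smul_comm, mul_one, smul_smul]
      abel
  add_mem' := by
    rintro _ _ ⟨c, x, hx, hx1, hx2, rfl⟩ ⟨d, y, hy, hy1, hy2, rfl⟩
    refine ⟨c + d, x + y, R.add_mem hx hy, by rw [mul_add, hx1, hy1], by rw [add_mul, hx2, hy2], ?_⟩
    rw [add_smul]
    abel
  algebraMap_mem' := by
    intro c
    refine ⟨c, 0, R.zero_mem, by rw [mul_zero], by rw [zero_mul], ?_⟩
    rw [add_zero, Algebra.algebraMap_eq_smul_one]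

/-- **The idempotent of a left ideal, in a corner.** -/
theorem corner_idem [CharZero K] (R : Submodule K (Matrix Ω Ω K))
    (hmul : ∀ x ∈ R, ∀ y ∈ R, x * y ∈ R) {e : Matrix Ω Ω K} (he : e ∈ R) (hee : e * e = e)
    (𝒥 : Submodule K (Matrix Ω Ω K))
    (ha : ∀ y ∈ R, ∀ x ∈ R, x ∈ 𝒥 → y * x ∈ 𝒥)
    (hb : ∀ x ∈ R, (∀ y ∈ R, (x * y).trace = 0) → x ∈ 𝒥) (hc : e ∉ 𝒥) :
    ∃ q ∈ R, q * q = q ∧ e * q = q ∧ q * e = q ∧ q ≠ e ∧
      ∀ x ∈ R, x ∈ 𝒥 → e * x = x → x * e = x → ∀ y ∈ R, ((x - x * q) * y).trace = 0 := by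
  set A := cAlg R hmul e with hA
  have hcomm : ∀ x : A, x.1 * e = e * x.1 := by
    rintro ⟨X, c, x, hx, hx1, hx2, rfl⟩
    change (c • 1 + x) * e = e * (c • 1 + x)
    rw [add_mul, mul_add, smul_mul_assoc, mul_smul_comm, one_mul, mul_one, hx1, hx2]
  have hR : ∀ x : A, x.1 * e ∈ R := by
    rintro ⟨X, c, x, hx, hx1, hx2, rfl⟩
    change (c • 1 + x) * e ∈ R
    rw [add_mul, smul_mul_assoc, one_mul, hx2]
    exact R.add_mem (R.smul_mem c he) hx
  have hmem : ∀ x ∈ R, e * x * e ∈ A := fun x hx =>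
    ⟨0, e * x * e, hmul _ (hmul _ he _ hx) _ he, by rw [← mul_assoc, ← mul_assoc, hee],
      by rw [mul_assoc, hee], by rw [zero_smul, zero_add]⟩
  have hmem' : ∀ x ∈ R, e * x = x → x * e = x → x ∈ A := fun x hx h1 h2 =>
    ⟨0, x, hx, h1, h2, by rw [zero_smul, zero_add]⟩
  -- the trace
  have htr : ∀ x y : Matrix Ω Ω K, x * e = x → e * x = x →
      (x * y).trace = (x * (e * y * e)).trace := by
    intro x y h1 h2
    calc (x * y).trace = ((e * x) * e * y).trace := by rw [h2, h1]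
      _ = (e * (x * e * y)).trace := by simp only [mul_assoc]
      _ = (x * e * y * e).trace := by rw [trace_mul_comm]
      _ = (x * (e * y * e)).trace := by simp only [mul_assoc]
  have hrad : ∀ x : A, x ∈ rad (sTr_isTr A) → ∀ y ∈ R, (x.1 * e * y).trace = 0 := by
    intro x hx y hy
    have h1 := htr (x.1 * e) y (by rw [mul_assoc, hee]) (by rw [hcomm, ← mul_assoc, hee])
    rw [h1]
    have h2 : x.1 * e * (e * y * e) = x.1 * (e * y * e) := by
      calc x.1 * e * (e * y * e) = x.1 * (e * e * y * e) := by simp only [mul_assoc]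
        _ = _ := by rw [hee]
    rw [h2]
    have h3 := hx ⟨e * y * e, hmem y hy⟩
    rw [sTr_apply] at h3
    exact h3
  -- the ideal
  set J : Ideal A :=
    { carrier := {x | x.1 * e ∈ 𝒥}
      add_mem' := by
        intro x y hx hy
        change (x + y).1 * e ∈ 𝒥
        rw [AddMemClass.coe_add, add_mul]
        exact 𝒥.add_mem hx hy
      zero_mem' := by
        change (0 : A).1 * e ∈ 𝒥
        rw [ZeroMemClass.coe_zero, zero_mul]
        exact 𝒥.zero_mem
      smul_mem' := by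
        intro y x hx
        change (y * x).1 * e ∈ 𝒥
        have h1 : (y * x).1 * e = (y.1 * e) * (x.1 * e) := by
          rw [MulMemClass.coe_mul]
          calc y.1 * x.1 * e = y.1 * (x.1 * e) := by rw [mul_assoc]
            _ = y.1 * (x.1 * e * e) := by rw [mul_assoc x.1 e e, hee]
            _ = y.1 * (e * x.1 * e) := by rw [hcomm]
            _ = _ := by simp only [mul_assoc]
        rw [h1]
        exact ha _ (hR y) _ (hR x) hx } with hJ
  have hJmem : ∀ x : A, x ∈ J ↔ x.1 * e ∈ 𝒥 := fun x => Iff.rfl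
  obtain ⟨q, hq, hq1, hqJ⟩ := exists_idem (sTr_isTr A) J
    (fun x hx => by
      rw [hJmem]
      exact hb _ (hR x) (hrad x hx))
    (by
      rw [hJmem, OneMemClass.coe_one, one_mul]
      exact hc)
  have hqq : q.1 * q.1 = q.1 := congrArg Subtype.val hq.eq
  refine ⟨q.1 * e, hR q, ?_, ?_, ?_, ?_, ?_⟩
  · calc q.1 * e * (q.1 * e) = q.1 * (e * q.1) * e := by simp only [mul_assoc]
      _ = (q.1 * q.1) * (e * e) := by rw [← hcomm]; simp only [mul_assoc]
      _ = _ := by rw [hqq, hee]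
  · rw [← mul_assoc, ← hcomm, mul_assoc, hee]
  · rw [mul_assoc, hee]
  · intro hqe
    -- `q = c + (1 - c) e`
    obtain ⟨c, r, hr, hr1, hr2, hr3⟩ := q.2
    have h1 : r = (1 - c) • e := by
      rw [hr3, add_mul, smul_mul_assoc, one_mul, hr2] at hqe
      rw [sub_smul, one_smul, ← hqe]
      abel_nf
      simp only [hqe]
      rw [← hqe]
      abel
    have h2 : (1 : Matrix Ω Ω K) - q.1 = (1 - c) • (1 - e) := by
      rw [hr3, h1, smul_sub, sub_smul, sub_smul, one_smul, one_smul]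
      abel
    have heA : e ∈ A := hmem' e he hee hee
    have h3 : (1 - ⟨e, heA⟩ : A) ∈ J := by
      rw [hJmem]
      change (1 - e) * e ∈ 𝒥
      rw [sub_mul, one_mul, hee, sub_self]
      exact 𝒥.zero_mem
    have h4 := rad_nil (sTr_isTr A) (hqJ _ h3)
    have h5 : IsNilpotent ((1 - c) • (1 - e) : Matrix Ω Ω K) := by
      obtain ⟨m, hm⟩ := h4
      refine ⟨m, ?_⟩
      have h6 := congrArg Subtype.val hm
      rw [Subalgebra.coe_pow] at h6
      have h7 : ((1 - ⟨e, heA⟩ : A) - (1 - ⟨e, heA⟩ : A) * q).1 = (1 - c) • (1 - e) := by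
        change (1 - e) - (1 - e) * q.1 = (1 - c) • (1 - e)
        calc (1 - e) - (1 - e) * q.1 = (1 - e) * (1 - q.1) := by rw [mul_sub, mul_one]
          _ = (1 - c) • ((1 - e) * (1 - e)) := by rw [h2, mul_smul_comm]
          _ = _ := by
            congr 1
            rw [mul_sub, mul_one, sub_mul, one_mul, hee, sub_self, sub_zero]
      rw [h7] at h6
      exact h6
    have h8 : (1 - c) • (1 - e) = 0 := by
      obtain ⟨m, hm⟩ := h5
      have h9 : ∀ m : ℕ, ((1 - c) • (1 - e) : Matrix Ω Ω K) ^ (m + 1) =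
          (1 - c) ^ (m + 1) • (1 - e) := by
        intro m
        induction m with
        | zero => rw [zero_add, pow_one, pow_one]
        | succ m ih =>
          rw [pow_succ, ih, smul_mul_smul_comm, ← pow_succ]
          congr 1
          rw [mul_sub, mul_one, sub_mul, one_mul, hee, sub_self, sub_zero]
      have h10 : ((1 - c) • (1 - e) : Matrix Ω Ω K) ^ (m + 1) = 0 := by
        rw [pow_succ, hm, zero_mul]
      rw [h9] at h10
      rcases smul_eq_zero.1 h10 with h11 | h11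
      · rw [pow_eq_zero_iff (Nat.succ_ne_zero m)] at h11
        rw [h11, zero_smul]
      · rw [h11, smul_zero]
    rw [← h2, sub_eq_zero] at h8
    exact hq1 (Subtype.ext h8.symm)
  · intro x hx hxJ hx1 hx2 y hy
    have hxA : x ∈ A := hmem' x hx hx1 hx2
    have h1 : (⟨x, hxA⟩ : A) ∈ J := by
      rw [hJmem]
      change x * e ∈ 𝒥
      rwa [hx2]
    have h2 := hrad _ (hqJ _ h1) y hy
    have h3 : ((⟨x, hxA⟩ : A) - (⟨x, hxA⟩ : A) * q).1 * e = x - x * (q.1 * e) := by
      change (x - x * q.1) * e = _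
      rw [sub_mul, hx2, mul_assoc]
    rw [h3] at h2
    exact h2

end Corner

end Pool.Agent.N160.ZlGr
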