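import Pool.Agent.N160.ZlGrA

/-!
# Task ZL/F6 (project of helper180 on MP_f569db_ag): weights and partial traces
-/

open Module Matrix

set_option linter.unusedSectionVars false

namespace Pool.Agent.N160.ZlGr

open Pool.Agent.N180.Zl Pool.Agent.N180.Zl.TFam

section Weights

variable {K : Type*} [Field K] {ι : Type*} [Fintype ι] [DecidableEq ι] {𝓣 : TFam K ι}

variable {S S' R : Type} [Fintype S] [Fintype S'] [Fintype R]
  [DecidableEq S] [DecidableEq S'] [DecidableEq R]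

lemma wt_elim (w : ι → ℝ) (ε : S → Bool) (η : S' → Bool) (I : S ⊕ S' → ι) :
    wt w (Sum.elim ε η) I = wt w ε (I ∘ Sum.inl) + wt w η (I ∘ Sum.inr) := by
  rw [wt, wt, wt, Fintype.sum_sum_type]
  rfl

lemma wt_not (w : ι → ℝ) (ε : S → Bool) (I : S → ι) :
    wt w (fun s => !(ε s)) I = - wt w ε I := by
  rw [wt, wt, ← Finset.sum_neg_distrib]
  refine Finset.sum_congr rfl fun s _ => ?_
  cases ε s <;> simp

/-- The weights of a matrix. -/
lemma Hm_le {w : ι → ℝ} {L : ℕ} (hW : Wt 𝓣 w L) {ε : S → Bool} {η : S' → Bool}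
    (hc : Fintype.card S + Fintype.card S' ≤ L) {M : Matrix (S → ι) (S' → ι) K}
    (hM : M ∈ 𝓣.Hm ε η) {J : S → ι} {I : S' → ι} (h : M J I ≠ 0) : wt w ε J ≤ wt w η I := by
  have h1 := hW.le (Sum.elim ε (fun s => !(η s))) (by rwa [Fintype.card_sum]) _ hM
    (Sum.elim J I) h
  rw [wt_elim, wt_not, Sum.elim_comp_inl, Sum.elim_comp_inr] at h1
  linarith

lemma Hm_lt {w : ι → ℝ} {L : ℕ} (hW : Wt 𝓣 w L) {ε : S → Bool} {η : S' → Bool}
    (hc : Fintype.card S + Fintype.card S' ≤ L) {M : Matrix (S → ι) (S' → ι) K}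
    (hM : M ∈ 𝓣.Hm ε η) (ho : ∀ y ∈ 𝓣.Hm η ε, (M * y).trace = 0) {J : S → ι} {I : S' → ι}
    (h : M J I ≠ 0) : wt w ε J < wt w η I := by
  have h2 : (fun I : S ⊕ S' → ι => M (I ∘ Sum.inl) (I ∘ Sum.inr)) ∈
      𝓣.Nn (Sum.elim ε (fun s => !(η s))) := by
    intro W hW'
    set y : Matrix (S' → ι) (S → ι) K := Matrix.of fun J' I' => W (Sum.elim I' J') with hy
    have hy1 : y ∈ 𝓣.Hm η ε := by
      refine 𝓣.reindex'' (Equiv.sumComm S S') ?_ hW' ?_
      · rintro (s | s)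
        · rfl
        · change η s = !(!(η s))
          rw [Bool.not_not]
      · intro I
        change W (Sum.elim (I ∘ Sum.inr) (I ∘ Sum.inl)) = W (I ∘ Equiv.sumComm S S')
        congr 1
        funext s
        rcases s with s | s <;> rfl
    have h3 := ho y hy1
    rw [Matrix.trace] at h3
    simp only [Matrix.diag_apply, Matrix.mul_apply] at h3
    rw [sum_sum]
    rw [← h3]
    refine Finset.sum_congr rfl fun I₁ _ => Finset.sum_congr rfl fun I₂ _ => ?_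
    rfl
  have h1 := hW.lt (Sum.elim ε (fun s => !(η s))) (by rwa [Fintype.card_sum]) _ hM h2
    (Sum.elim J I) h
  rw [wt_elim, wt_not, Sum.elim_comp_inl, Sum.elim_comp_inr] at h1
  linarith

end Weights

section PTrace

variable {K : Type*} [Field K] {ι : Type*} [Fintype ι] [DecidableEq ι]

variable {S S' S'' R : Type} [Fintype S] [Fintype S'] [Fintype S''] [Fintype R]
  [DecidableEq S] [DecidableEq S'] [DecidableEq S''] [DecidableEq R]

/-- The partial trace. -/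
def ptr (Z : Matrix (S ⊕ R → ι) (S' ⊕ R → ι) K) : Matrix (S → ι) (S' → ι) K :=
  Matrix.of fun J I => ∑ L : R → ι, Z (Sum.elim J L) (Sum.elim I L)

lemma ptr_apply (Z : Matrix (S ⊕ R → ι) (S' ⊕ R → ι) K) (J : S → ι) (I : S' → ι) :
    ptr Z J I = ∑ L : R → ι, Z (Sum.elim J L) (Sum.elim I L) := rfl

lemma ptr_kr_right (Z : Matrix (S ⊕ R → ι) (S' ⊕ R → ι) K) (N : Matrix (S' → ι) (S'' → ι) K) :
    ptr (Z * kr N (1 : Matrix (R → ι) (R → ι) K)) = ptr Z * N := by
  ext J I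
  rw [ptr_apply, Matrix.mul_apply]
  simp only [ptr_apply, Matrix.mul_apply, Finset.sum_mul]
  conv_rhs => rw [Finset.sum_comm]
  refine Finset.sum_congr rfl fun L _ => ?_
  rw [sum_sum]
  refine Finset.sum_congr rfl fun I₁ _ => ?_
  rw [Finset.sum_eq_single L]
  · rw [kr_apply, Sum.elim_comp_inl, Sum.elim_comp_inl, Sum.elim_comp_inr, Sum.elim_comp_inr,
      Matrix.one_apply_eq, mul_one]
  · intro L' _ hL
    rw [kr_apply, Sum.elim_comp_inr, Sum.elim_comp_inr, Matrix.one_apply_ne hL, mul_zero, mul_zero]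
  · intro h0
    exact absurd (Finset.mem_univ _) h0

lemma ptr_kr_left (Z : Matrix (S' ⊕ R → ι) (S'' ⊕ R → ι) K) (N : Matrix (S → ι) (S' → ι) K) :
    ptr (kr N (1 : Matrix (R → ι) (R → ι) K) * Z) = N * ptr Z := by
  ext J I
  rw [ptr_apply, Matrix.mul_apply]
  simp only [ptr_apply, Matrix.mul_apply, Finset.mul_sum]
  conv_rhs => rw [Finset.sum_comm]
  refine Finset.sum_congr rfl fun L _ => ?_
  rw [sum_sum]
  refine Finset.sum_congr rfl fun I₁ _ => ?_
  rw [Finset.sum_eq_single L]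
  · rw [kr_apply, Sum.elim_comp_inl, Sum.elim_comp_inl, Sum.elim_comp_inr, Sum.elim_comp_inr,
      Matrix.one_apply_eq, mul_one]
  · intro L' _ hL
    rw [kr_apply, Sum.elim_comp_inr, Sum.elim_comp_inr, Matrix.one_apply_ne (Ne.symm hL), mul_zero,
      zero_mul]
  · intro h0
    exact absurd (Finset.mem_univ _) h0

lemma trace_ptr (Z : Matrix (S ⊕ R → ι) (S ⊕ R → ι) K) : (ptr Z).trace = Z.trace := by
  rw [Matrix.trace, Matrix.trace, sum_sum]
  rfl

lemma ptr_mem (𝓣 : TFam K ι) {ε : S → Bool} {η : S' → Bool} {ζ : R → Bool}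
    {Z : Matrix (S ⊕ R → ι) (S' ⊕ R → ι) K} (hZ : Z ∈ 𝓣.Hm (Sum.elim ε ζ) (Sum.elim η ζ)) :
    ptr Z ∈ 𝓣.Hm ε η := by
  set e : (S ⊕ R) ⊕ (S' ⊕ R) ≃ (R ⊕ R) ⊕ (S ⊕ S') :=
    { toFun := fun s => match s with
        | Sum.inl (Sum.inl s) => Sum.inr (Sum.inl s)
        | Sum.inl (Sum.inr s) => Sum.inl (Sum.inl s)
        | Sum.inr (Sum.inl s) => Sum.inr (Sum.inr s)
        | Sum.inr (Sum.inr s) => Sum.inl (Sum.inr s)
      invFun := fun s => match s with
        | Sum.inr (Sum.inl s) => Sum.inl (Sum.inl s)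
        | Sum.inl (Sum.inl s) => Sum.inl (Sum.inr s)
        | Sum.inr (Sum.inr s) => Sum.inr (Sum.inl s)
        | Sum.inl (Sum.inr s) => Sum.inr (Sum.inr s)
      left_inv := by rintro ((s | s) | (s | s)) <;> rfl
      right_inv := by rintro ((s | s) | (s | s)) <;> rfl } with he
  have h2 := 𝓣.reindex' e (ε' := Sum.elim (Sum.elim ζ (fun s => !(ζ s)))
    (Sum.elim ε (fun s => !(η s)))) (by rintro ((s | s) | (s | s)) <;> rfl) hZ
  have h3 := 𝓣.ctrBlock (fun s => by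
    change ζ s ≠ !(ζ s)
    cases ζ s <;> simp) h2
  have h4 : (fun I : S ⊕ S' → ι => ptr Z (I ∘ Sum.inl) (I ∘ Sum.inr)) =
      fun J : S ⊕ S' → ι => ∑ I : R → ι, Z ((Sum.elim (Sum.elim I I) J ∘ e) ∘ Sum.inl)
        ((Sum.elim (Sum.elim I I) J ∘ e) ∘ Sum.inr) := by
    funext J
    rw [ptr_apply]
    refine Finset.sum_congr rfl fun I _ => ?_
    congr 1 <;> funext s <;> rcases s with s | s <;> rfl
  rw [mem_Hm, h4]
  exact h3

end PTrace

end Pool.Agent.N160.ZlGr
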