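import Pool.Agent.N160.ZlGrB

/-!
# Task ZL/F6 (project of helper180 on MP_f569db_ag): the idempotent of a vector of low weight
-/

open Module Matrix

set_option linter.unusedSectionVars false

namespace Pool.Agent.N160.ZlGr

open Pool.Agent.N180.Zl Pool.Agent.N180.Zl.TFam

section Core

variable {K : Type*} [Field K] {ι : Type*} [Fintype ι] [DecidableEq ι] {𝓣 : TFam K ι}

lemma one_sq (n : ℕ) : (Ob.one 𝓣).sq n = 1 := kr_one_one

open Classical in
/-- The part of weight `-c`. -/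
noncomputable def top (K : Type*) [Field K] {ι : Type*} [Fintype ι] [DecidableEq ι] (w : ι → ℝ)
    {S S' : Type} [Fintype S] [Fintype S'] (ε : S → Bool)
    (η : S' → Bool) (c : ℝ) :
    Matrix (S → ι) (S' → ι) K →ₗ[K] Matrix (S → ι) (S' → ι) K where
  toFun := fun x => Matrix.of fun J I => if wt w ε J - wt w η I = -c then x J I else 0
  map_add' := by
    intro x y
    ext J I
    simp only [Matrix.of_apply, Matrix.add_apply]
    split_ifs
    · rfl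
    · rw [add_zero]
  map_smul' := by
    intro a x
    ext J I
    simp only [Matrix.of_apply, Matrix.smul_apply, RingHom.id_apply]
    split_ifs
    · rfl
    · rw [smul_zero]

lemma top_eq_zero {w : ι → ℝ} {S S' : Type} [Fintype S] [Fintype S'] {ε : S → Bool}
    {η : S' → Bool} {c : ℝ} {x : Matrix (S → ι) (S' → ι) K} :
    top K w ε η c x = 0 ↔ ∀ J I, wt w ε J - wt w η I = -c → x J I = 0 := by
  classical
  constructor
  · intro h J I h1
    have h2 := congrFun (congrFun h J) I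
    change (if wt w ε J - wt w η I = -c then x J I else 0) = 0 at h2
    rwa [if_pos h1] at h2
  · intro h
    ext J I
    change (if wt w ε J - wt w η I = -c then x J I else 0) = 0
    split_ifs with h1
    · exact h J I h1
    · rfl

/-- Multiplication on the right. -/
def mulR {m m' m'' : Type*} [Fintype m'] (N : Matrix m' m'' K) :
    Matrix m m' K →ₗ[K] Matrix m m'' K where
  toFun := fun M => M * N
  map_add' := fun M M' => Matrix.add_mul M M' N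
  map_smul' := fun c M => Matrix.smul_mul c M N

lemma mulR_apply {m m' m'' : Type*} [Fintype m'] (N : Matrix m' m'' K) (M : Matrix m m' K) :
    mulR N M = M * N := rfl

/-- The top part of the product with a vector. -/
noncomputable def Lam (w : ι → ℝ) (n : ℕ) (Y : Ob 𝓣) (U : Matrix (Y.S → ι) ((Ob.one 𝓣).S → ι) K)
    (c : ℝ) : Matrix ((Ob.one 𝓣).S ⊕ Fin n → ι) (Y.S ⊕ Fin n → ι) K →ₗ[K]
      Matrix ((Ob.one 𝓣).S ⊕ Fin n → ι) ((Ob.one 𝓣).S ⊕ Fin n → ι) K :=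
  top K w ((Ob.one 𝓣).st n) ((Ob.one 𝓣).st n) c ∘ₗ
    mulR (kr U (1 : Matrix (Fin n → ι) (Fin n → ι) K))

lemma card_one (n : ℕ) : Fintype.card ((Ob.one 𝓣).S ⊕ Fin n) = n := by
  rw [Fintype.card_sum, Fintype.card_fin]
  have h : Fintype.card (Ob.one 𝓣).S = 0 := Fintype.card_empty
  rw [h, zero_add]

lemma kr_U_ne {Y : Ob 𝓣} {w : ι → ℝ} {n : ℕ} {U : Matrix (Y.S → ι) ((Ob.one 𝓣).S → ι) K} {c : ℝ}
    (hU1 : ∀ I E, U I E ≠ 0 → wt w Y.ε I ≤ -c) {I : Y.S ⊕ Fin n → ι}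
    {L : (Ob.one 𝓣).S ⊕ Fin n → ι} (h : kr U (1 : Matrix (Fin n → ι) (Fin n → ι) K) I L ≠ 0) :
    wt w (Y.st n) I ≤ wt w ((Ob.one 𝓣).st n) L - c := by
  rw [kr_apply] at h
  have h1 := left_ne_zero_of_mul h
  have h2 := right_ne_zero_of_mul h
  have h3 : I ∘ Sum.inr = L ∘ Sum.inr := by
    by_contra hne
    exact h2 (Matrix.one_apply_ne hne)
  have h4 := hU1 _ _ h1
  have h5 : wt w (Ob.one 𝓣).ε (L ∘ Sum.inl) = 0 := by
    rw [wt]
    exact Finset.sum_of_isEmpty (ι := Empty) _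
  rw [Ob.st, Ob.st, wt_elim, wt_elim, h3, h5]
  linarith

lemma VM_ne {w : ι → ℝ} {L : ℕ} (hW : Wt 𝓣 w L) {n : ℕ} {Y : Ob 𝓣}
    (hc2 : 2 * n + Fintype.card Y.S ≤ L) {U : Matrix (Y.S → ι) ((Ob.one 𝓣).S → ι) K} {c : ℝ}
    (hU1 : ∀ I E, U I E ≠ 0 → wt w Y.ε I ≤ -c)
    {M : Matrix ((Ob.one 𝓣).S ⊕ Fin n → ι) (Y.S ⊕ Fin n → ι) K}
    (hM : M ∈ 𝓣.Hm ((Ob.one 𝓣).st n) (Y.st n)) {J I : (Ob.one 𝓣).S ⊕ Fin n → ι}
    (h : (M * kr U (1 : Matrix (Fin n → ι) (Fin n → ι) K)) J I ≠ 0) :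
    wt w ((Ob.one 𝓣).st n) J ≤ wt w ((Ob.one 𝓣).st n) I - c := by
  rw [Matrix.mul_apply] at h
  obtain ⟨I', _, h1⟩ := Finset.exists_ne_zero_of_sum_ne_zero h
  have h2 := kr_U_ne hU1 (right_ne_zero_of_mul h1)
  have h3 := Hm_le hW (by
    rw [card_one, Fintype.card_sum, Fintype.card_fin]
    omega) hM (left_ne_zero_of_mul h1)
  exact h3.trans h2

/-- The object given by a smaller idempotent. -/
@[reducible] def subOb (Y : Ob 𝓣) (q : Matrix (Y.S → ι) (Y.S → ι) K) (hq : q ∈ 𝓣.Hm Y.ε Y.ε)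
    (hqq : q * q = q) : Ob 𝓣 where
  S := Y.S
  ε := Y.ε
  q := q
  mem := hq
  idem := hqq

lemma nr_subOb (n : ℕ) (Y : Ob 𝓣) (q : Matrix (Y.S → ι) (Y.S → ι) K) (hq : q ∈ 𝓣.Hm Y.ε Y.ε)
    (hqq : q * q = q) (heq : Y.q * q = q) :
    nr (Ob.HS n (Ob.one 𝓣) (subOb Y q hq hqq)) (orth (Ob.HS n Y (Ob.one 𝓣))) =
      Ob.hs n (Ob.one 𝓣) (subOb Y q hq hqq) := by
  rw [Ob.hs, pr]
  refine nr_congr LinearMap.id (Submodule.map_id _) ?_
  intro M hM
  rw [LinearMap.id_apply]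
  have hkr : kr q (1 : Matrix (Fin n → ι) (Fin n → ι) K) ∈ 𝓣.Hm (Y.st n) (Y.st n) :=
    𝓣.kr_mem hq (𝓣.Hm_one _)
  constructor
  · intro h y hy
    have h1 : M * kr q (1 : Matrix (Fin n → ι) (Fin n → ι) K) = M := hM.2.2
    have h2 : kr q (1 : Matrix (Fin n → ι) (Fin n → ι) K) * y ∈
        Ob.HS n (subOb Y q hq hqq) (Ob.one 𝓣) := by
      refine ⟨𝓣.Hm_mul hkr hy.1, ?_, ?_⟩
      · change kr q (1 : Matrix (Fin n → ι) (Fin n → ι) K) *
          (kr q (1 : Matrix (Fin n → ι) (Fin n → ι) K) * y) = _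
        rw [← Matrix.mul_assoc, kr_mul, hqq, Matrix.one_mul]
      · rw [Matrix.mul_assoc, hy.2.2]
    have h3 := h _ h2
    rw [← Matrix.mul_assoc, h1] at h3
    exact h3
  · intro h y hy
    refine h y ⟨hy.1, ?_, hy.2.2⟩
    have h1 : kr q (1 : Matrix (Fin n → ι) (Fin n → ι) K) * y = y := hy.2.1
    rw [← h1, Ob.sq, ← Matrix.mul_assoc, kr_mul, heq, Matrix.one_mul]

theorem core [CharZero K] (hr : S_rank 𝓣) {w : ι → ℝ} {L : ℕ} (hW : Wt 𝓣 w L) (n : ℕ) (Y : Ob 𝓣)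
    (hc1 : Fintype.card Y.S + Fintype.card Y.S ≤ L) (hc2 : 2 * n + Fintype.card Y.S ≤ L)
    (U : Matrix (Y.S → ι) ((Ob.one 𝓣).S → ι) K) (hYU : Y.q * U = U) (c : ℝ) (hU1 : ∀ I E, U I E ≠ 0 → wt w Y.ε I ≤ -c)
    (hU2 : ∃ I E, U I E ≠ 0 ∧ wt w Y.ε I = -c) (ρ : ℕ) (hρ : N282.ZL.Fac Y.q ρ) :
    Ob.hs n (Ob.one 𝓣) Y ≤ finrank K ((Ob.HS n (Ob.one 𝓣) Y).map (Lam w n Y U c)) +
      (ρ - 1) * Ob.hs n (Ob.one 𝓣) (Ob.one 𝓣) := by
  -- the left ideal
  set 𝒥 : Submodule K (Matrix (Y.S → ι) (Y.S → ι) K) :=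
    { carrier := {x | ∀ J E, wt w Y.ε J = -c → (x * U) J E = 0}
      add_mem' := by
        intro x y hx hy J E h
        rw [Matrix.add_mul, Matrix.add_apply, hx J E h, hy J E h, add_zero]
      zero_mem' := by
        intro J E _
        rw [Matrix.zero_mul, Matrix.zero_apply]
      smul_mem' := by
        intro a x hx J E h
        rw [Matrix.smul_mul, Matrix.smul_apply, hx J E h, smul_zero] } with h𝒥
  have hmem𝒥 : ∀ x, x ∈ 𝒥 ↔ ∀ J E, wt w Y.ε J = -c → (x * U) J E = 0 := fun x => Iff.rfl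
  have hxU : ∀ x ∈ 𝓣.Hm Y.ε Y.ε, ∀ J E, (x * U) J E ≠ 0 → wt w Y.ε J ≤ -c := by
    intro x hx J E h
    rw [Matrix.mul_apply] at h
    obtain ⟨I', _, h1⟩ := Finset.exists_ne_zero_of_sum_ne_zero h
    exact (Hm_le hW hc1 hx (left_ne_zero_of_mul h1)).trans (hU1 _ _ (right_ne_zero_of_mul h1))
  obtain ⟨q, hq, hqq, heq, hqe, hne, hqJ⟩ := corner_idem (𝓣.Hm Y.ε Y.ε)
    (fun x hx y hy => 𝓣.Hm_mul hx hy) Y.mem Y.idem 𝒥
    (by
      intro y hy x hx hxJ
      rw [hmem𝒥] at hxJ ⊢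
      intro J E hJ
      rw [Matrix.mul_assoc, Matrix.mul_apply]
      apply Finset.sum_eq_zero
      intro I _
      by_contra h
      have h1 := Hm_le hW hc1 hy (left_ne_zero_of_mul h)
      have h2 := hxU x hx I E (right_ne_zero_of_mul h)
      have h3 := hxJ I E (by linarith)
      exact right_ne_zero_of_mul h h3)
    (by
      intro x hx hxo
      rw [hmem𝒥]
      intro J E hJ
      rw [Matrix.mul_apply]
      apply Finset.sum_eq_zero
      intro I _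
      by_contra h
      have h1 := Hm_lt hW hc1 hx hxo (left_ne_zero_of_mul h)
      have h2 := hU1 I E (right_ne_zero_of_mul h)
      linarith)
    (by
      rw [hmem𝒥]
      intro h
      obtain ⟨I, E, h1, h2⟩ := hU2
      have h3 := h I E h2
      rw [hYU] at h3
      exact h1 h3)
  -- the smaller object
  have hlt := N282.ZL.fac_lt q Y.q ρ hρ Y.idem hqq heq hqe hne
  have hY1 := hr n (subOb Y q hq hqq) (ρ - 1) hlt.1
  rw [← nr_subOb n Y q hq hqq heq] at hY1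
  set X := Ob.HS n (Ob.one 𝓣) Y with hX
  set N := orth (Ob.HS n Y (Ob.one 𝓣)) with hN
  set X1 := Ob.HS n (Ob.one 𝓣) (subOb Y q hq hqq) with hX1
  set Λ := Lam w n Y U c with hΛ
  have hΛ0 : ∀ M, Λ M = 0 ↔ ∀ J I, wt w ((Ob.one 𝓣).st n) J - wt w ((Ob.one 𝓣).st n) I = -c →
      (M * kr U (1 : Matrix (Fin n → ι) (Fin n → ι) K)) J I = 0 := fun M => top_eq_zero
  have hkr : kr q (1 : Matrix (Fin n → ι) (Fin n → ι) K) ∈ 𝓣.Hm (Y.st n) (Y.st n) :=
    𝓣.kr_mem hq (𝓣.Hm_one _)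
  -- (d)
  have hd : ∀ M ∈ X, M ∈ N → Λ M = 0 := by
    intro M hM hMN
    rw [hΛ0]
    intro J I hJI
    rw [Matrix.mul_apply]
    apply Finset.sum_eq_zero
    intro I' _
    by_contra h
    have h1 : ∀ y ∈ 𝓣.Hm (Y.st n) ((Ob.one 𝓣).st n), (M * y).trace = 0 := by
      intro y hy
      have h2 : Y.sq n * y ∈ Ob.HS n Y (Ob.one 𝓣) :=
        ⟨𝓣.Hm_mul (Y.sq_mem n) hy, by rw [← Matrix.mul_assoc, Y.sq_idem],
          by rw [one_sq, Matrix.mul_one]⟩
      have h3 := hMN _ h2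
      rw [← Matrix.mul_assoc, hM.2.2] at h3
      exact h3
    have h4 := Hm_lt hW (by
      rw [card_one, Fintype.card_sum, Fintype.card_fin]
      omega) hM.1 h1 (left_ne_zero_of_mul h)
    have h5 := kr_U_ne hU1 (right_ne_zero_of_mul h)
    linarith
  -- (e)
  have he : ∀ M ∈ X, Λ M = 0 → M - M * kr q (1 : Matrix (Fin n → ι) (Fin n → ι) K) ∈ N := by
    intro M hM hM0 y hy
    rw [hΛ0] at hM0
    have hyM : y * M ∈ 𝓣.Hm (Y.st n) (Y.st n) := 𝓣.Hm_mul hy.1 hM.1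
    set x := ptr (y * M) with hx
    have hx1 : x ∈ 𝓣.Hm Y.ε Y.ε := ptr_mem 𝓣 hyM
    have hx2 : Y.q * x = x := by
      rw [hx, ← ptr_kr_left, ← Matrix.mul_assoc]
      have h1 : kr Y.q (1 : Matrix (Fin n → ι) (Fin n → ι) K) * y = y := hy.2.1
      rw [h1]
    have hx3 : x * Y.q = x := by
      rw [hx, ← ptr_kr_right, Matrix.mul_assoc]
      have h1 : M * kr Y.q (1 : Matrix (Fin n → ι) (Fin n → ι) K) = M := hM.2.2
      rw [h1]
    have hx4 : x ∈ 𝒥 := by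
      rw [hmem𝒥]
      intro J E hJ
      rw [hx, ← ptr_kr_right, ptr_apply, Matrix.mul_assoc]
      apply Finset.sum_eq_zero
      intro F _
      rw [Matrix.mul_apply]
      apply Finset.sum_eq_zero
      intro I _
      by_contra h
      have h1 := left_ne_zero_of_mul h
      have h2 := right_ne_zero_of_mul h
      have h3 := Hm_le hW (by
        rw [card_one, Fintype.card_sum, Fintype.card_fin]
        omega) hy.1 h1
      have h4 := VM_ne hW hc2 hU1 hM.1 h2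
      have h5 : wt w (Y.st n) (Sum.elim J F) = -c + wt w (fun _ : Fin n => true) F := by
        rw [Ob.st, wt_elim, Sum.elim_comp_inl, Sum.elim_comp_inr, hJ]
      have h6 : wt w ((Ob.one 𝓣).st n) (Sum.elim E F) = wt w (fun _ : Fin n => true) F := by
        have h7 : wt w (Ob.one 𝓣).ε E = 0 := by
          rw [wt]
          exact Finset.sum_of_isEmpty (ι := Empty) _
        rw [Ob.st, wt_elim, Sum.elim_comp_inl, Sum.elim_comp_inr, h7, zero_add]
      exact h2 (hM0 _ _ (by linarith))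
    have hx5 := hqJ x hx1 hx4 hx2 hx3 1 (𝓣.Hm_one _)
    rw [Matrix.mul_one, trace_sub] at hx5
    rw [Matrix.sub_mul, trace_sub]
    have h8 : (M * y).trace = x.trace := by
      rw [trace_mul_comm, hx, trace_ptr]
    have h9 : (M * kr q (1 : Matrix (Fin n → ι) (Fin n → ι) K) * y).trace = (x * q).trace := by
      rw [hx, ← ptr_kr_right, trace_ptr, trace_mul_comm, ← Matrix.mul_assoc]
    rw [h8, h9]
    exact hx5
  -- dimensions
  have h1 := nr_add X (LinearMap.ker Λ)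
  have h2 : nr X (LinearMap.ker Λ) = finrank K (X.map Λ) :=
    nr_eq Λ fun M _ => LinearMap.mem_ker.symm
  have h3 := nr_add X N
  have h4 := nr_add (X ⊓ LinearMap.ker Λ) N
  have h5 : (X ⊓ LinearMap.ker Λ) ⊓ N = X ⊓ N := by
    ext M
    constructor
    · rintro ⟨⟨h6, _⟩, h7⟩
      exact ⟨h6, h7⟩
    · rintro ⟨h6, h7⟩
      exact ⟨⟨h6, hd M h6 h7⟩, h7⟩
  have h6 : nr (X ⊓ LinearMap.ker Λ) N ≤ nr X1 N := by
    refine Submodule.finrank_mono ?_
    rintro _ ⟨M, ⟨hM, hM0⟩, rfl⟩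
    refine ⟨M * kr q (1 : Matrix (Fin n → ι) (Fin n → ι) K), ?_, ?_⟩
    · refine ⟨𝓣.Hm_mul hM.1 hkr, ?_, ?_⟩
      · rw [one_sq, Matrix.one_mul]
      · change M * kr q (1 : Matrix (Fin n → ι) (Fin n → ι) K) *
          kr q (1 : Matrix (Fin n → ι) (Fin n → ι) K) = _
        rw [Matrix.mul_assoc, kr_mul, hqq, Matrix.one_mul]
    · rw [Submodule.mkQ_apply, Submodule.mkQ_apply, eq_comm, Submodule.Quotient.eq]
      exact he M hM hM0
  rw [h5] at h4
  have h7 : Ob.hs n (Ob.one 𝓣) Y = nr X N := rfl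
  rw [h7]
  omega

end Core

end Pool.Agent.N160.ZlGr
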