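import Pool.Agent.N160.ZlGrC

/-!
# Task ZL/F6 (project of helper180 on MP_f569db_ag): the graded pieces
-/

open Module Matrix

set_option linter.unusedSectionVars false

namespace Pool.Agent.N160.ZlGr

open Pool.Agent.N180.Zl Pool.Agent.N180.Zl.TFam

section Power

variable {K : Type*} [Field K] {ι : Type*} [Fintype ι] [DecidableEq ι] {𝓣 : TFam K ι}

/-- The power of a tensor. -/
def uv {p : ℕ} (z : (Fin p → ι) → K) (k : ℕ) (I : Fin k × Fin p → ι) : K :=
  ∏ a, z (fun b => I (a, b))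

/-- The bijection used for powers. -/
def eP (k p : ℕ) : Fin p ⊕ (Fin k × Fin p) ≃ Fin (k + 1) × Fin p where
  toFun s := match s with
    | Sum.inl b => (0, b)
    | Sum.inr (a, b) => (a.succ, b)
  invFun s := Fin.cases (Sum.inl s.2) (fun a => Sum.inr (a, s.2)) s.1
  left_inv s := by
    rcases s with b | ⟨a, b⟩ <;> rfl
  right_inv s := by
    rcases s with ⟨a, b⟩
    refine Fin.cases ?_ (fun a => ?_) a <;> rfl

lemma uv_mem {p : ℕ} {z : (Fin p → ι) → K} (hz : z ∈ 𝓣.C (fun _ : Fin p => true)) :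
    ∀ k, uv z k ∈ 𝓣.C (εb k p) := by
  intro k
  induction k with
  | zero =>
    have h1 := 𝓣.unit (fun s => s.elim)
    refine 𝓣.reindex'' (Equiv.equivOfIsEmpty Empty (Fin 0 × Fin p)) (fun s => s.elim) h1 ?_
    intro I
    rw [uv, Fin.prod_univ_zero]
  | succ k ih =>
    refine 𝓣.reindex'' (eP k p) ?_ (𝓣.mul hz ih) ?_
    · rintro (b | ⟨a, b⟩) <;> rfl
    · intro I
      rw [uv, Fin.prod_univ_succ]
      rfl

/-- The power as a matrix with one column. -/
def Uv [CharZero K] (𝓣 : TFam K ι) {p : ℕ} (z : (Fin p → ι) → K) (k : ℕ) :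
    Matrix ((symOb 𝓣 p k).S → ι) ((Ob.one 𝓣).S → ι) K :=
  Matrix.of fun I _ => uv z k I

lemma Uv_mem [CharZero K] {p : ℕ} {z : (Fin p → ι) → K} (hz : z ∈ 𝓣.C (fun _ : Fin p => true))
    (k : ℕ) : Uv 𝓣 z k ∈ 𝓣.Hm (symOb 𝓣 p k).ε (Ob.one 𝓣).ε := by
  refine 𝓣.reindex'' (Equiv.sumEmpty (Fin k × Fin p) Empty).symm ?_ (uv_mem hz k) ?_
  · intro s
    rfl
  · intro I
    rfl

lemma wt_eb (w : ι → ℝ) (k p : ℕ) (I : Fin k × Fin p → ι) :
    wt w (εb k p) I = ∑ a, wt w (fun _ : Fin p => true) (fun b => I (a, b)) := by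
  rw [wt, Fintype.sum_prod_type]
  rfl

lemma uv_sym [CharZero K] {p : ℕ} (z : (Fin p → ι) → K) (k : ℕ) :
    (symOb 𝓣 p k).q * Uv 𝓣 z k = Uv 𝓣 z k := by
  ext J E
  rw [Matrix.mul_apply]
  change ∑ I : Fin k × Fin p → ι, bm (Pool.Agent.N348.ZL.symM K (Fin p → ι) k) J I * uv z k I =
    uv z k J
  have h1 : ∀ I : Fin k × Fin p → ι, bm (Pool.Agent.N348.ZL.symM K (Fin p → ι) k) J I * uv z k I =
      (fun I' : Fin k → (Fin p → ι) => Pool.Agent.N348.ZL.symM K (Fin p → ι) k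
        (Equiv.curry (Fin k) (Fin p) ι J) I' * ∏ a, z (I' a)) (Equiv.curry (Fin k) (Fin p) ι I) :=
    fun I => rfl
  rw [Finset.sum_congr rfl fun I _ => h1 I, (Equiv.curry (Fin k) (Fin p) ι).sum_comp
    (fun I' : Fin k → (Fin p → ι) => Pool.Agent.N348.ZL.symM K (Fin p → ι) k
        (Equiv.curry (Fin k) (Fin p) ι J) I' * ∏ a, z (I' a))]
  have h2 : ∀ I' : Fin k → (Fin p → ι), Pool.Agent.N348.ZL.symM K (Fin p → ι) k
        (Equiv.curry (Fin k) (Fin p) ι J) I' * ∏ a, z (I' a) = ((Nat.factorial k : ℕ) : K)⁻¹ *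
      ∑ σ : Equiv.Perm (Fin k), (if (Equiv.curry (Fin k) (Fin p) ι J) ∘ σ = I' then
        ∏ a, z (I' a) else 0) := by
    intro I'
    rw [Pool.Agent.N348.ZL.symM, Matrix.smul_apply, Matrix.sum_apply, smul_eq_mul, mul_assoc,
      Finset.sum_mul]
    congr 1
    refine Finset.sum_congr rfl fun σ _ => ?_
    rw [Pool.Agent.N348.ZL.permM]
    split_ifs
    · rw [one_mul]
    · rw [zero_mul]
  rw [Finset.sum_congr rfl fun I' _ => h2 I', ← Finset.mul_sum, Finset.sum_comm]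
  have h3 : ∀ σ : Equiv.Perm (Fin k), (∑ I' : Fin k → (Fin p → ι),
      if (Equiv.curry (Fin k) (Fin p) ι J) ∘ σ = I' then ∏ a, z (I' a) else 0) = uv z k J := by
    intro σ
    rw [Finset.sum_ite_eq, if_pos (Finset.mem_univ _)]
    exact Equiv.prod_comp σ (fun a => z (fun b => J (a, b)))
  rw [Finset.sum_congr rfl fun σ _ => h3 σ, Finset.sum_const, Finset.card_univ,
    Fintype.card_perm, Fintype.card_fin, nsmul_eq_mul, ← mul_assoc, inv_mul_cancel₀, one_mul]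
  exact_mod_cast Nat.factorial_ne_zero k

lemma fac_sym [CharZero K] (p k : ℕ) :
    N282.ZL.Fac (symOb 𝓣 p k).q ((Fintype.card ι ^ p).multichoose k) := by
  obtain ⟨A, B, h1, _⟩ := Pool.Agent.N348.ZL.symM_frame K (Fin p → ι) k
  have h2 : N282.ZL.Fac (Pool.Agent.N348.ZL.symM K (Fin p → ι) k)
      ((Fintype.card (Fin p → ι)).multichoose k) := ⟨A, B, h1⟩
  rw [Fintype.card_fun, Fintype.card_fin] at h2
  exact N282.ZL.fac_reindex _ _ (Equiv.curry (Fin k) (Fin p) ι).symm h2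

end Power

section Graded

variable {K : Type*} [Field K] {ι : Type*} [Fintype ι] [DecidableEq ι] {𝓣 : TFam K ι}

/-- The filtration. -/
def Fl (𝓣 : TFam K ι) (w : ι → ℝ) (n : ℕ) (c : ℝ) :
    Submodule K (Matrix ((Ob.one 𝓣).S ⊕ Fin n → ι) ((Ob.one 𝓣).S ⊕ Fin n → ι) K) where
  carrier := {x | x ∈ 𝓣.Hm ((Ob.one 𝓣).st n) ((Ob.one 𝓣).st n) ∧ ∀ J I, x J I ≠ 0 →
    wt w ((Ob.one 𝓣).st n) J - wt w ((Ob.one 𝓣).st n) I ≤ -c}
  add_mem' := by
    rintro x y ⟨hx, hx'⟩ ⟨hy, hy'⟩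
    refine ⟨Submodule.add_mem _ hx hy, fun J I h => ?_⟩
    by_cases h1 : x J I = 0
    · apply hy'
      intro h2
      apply h
      rw [Matrix.add_apply, h1, h2, add_zero]
    · exact hx' J I h1
  zero_mem' := ⟨Submodule.zero_mem _, fun J I h => absurd rfl h⟩
  smul_mem' := by
    rintro a x ⟨hx, hx'⟩
    refine ⟨Submodule.smul_mem _ a hx, fun J I h => hx' J I ?_⟩
    intro h1
    apply h
    rw [Matrix.smul_apply, h1, smul_zero]

lemma Fl_step (w : ι → ℝ) (n : ℕ) {c d : ℝ} (hcd : c < d)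
    (Y : Submodule K (Matrix ((Ob.one 𝓣).S ⊕ Fin n → ι) ((Ob.one 𝓣).S ⊕ Fin n → ι) K))
    (hY : Y ≤ Fl 𝓣 w n c) :
    finrank K (Y.map (top K w ((Ob.one 𝓣).st n) ((Ob.one 𝓣).st n) c)) +
      finrank K (Fl 𝓣 w n d) ≤ finrank K (Fl 𝓣 w n c) := by
  set τ := top K w ((Ob.one 𝓣).st n) ((Ob.one 𝓣).st n) c with hτ
  have h1 := nr_add (Fl 𝓣 w n c) (LinearMap.ker τ)
  have h2 : nr (Fl 𝓣 w n c) (LinearMap.ker τ) = finrank K ((Fl 𝓣 w n c).map τ) :=
    nr_eq τ fun M _ => LinearMap.mem_ker.symm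
  have h3 : finrank K (Y.map τ) ≤ finrank K ((Fl 𝓣 w n c).map τ) :=
    Submodule.finrank_mono (Submodule.map_mono hY)
  have h4 : finrank K (Fl 𝓣 w n d) ≤
      finrank K ((Fl 𝓣 w n c) ⊓ LinearMap.ker τ : Submodule K _) := by
    refine Submodule.finrank_mono ?_
    rintro x ⟨hx, hx'⟩
    refine ⟨⟨hx, fun J I h => ?_⟩, ?_⟩
    · have := hx' J I h
      linarith
    · change τ x = 0
      rw [hτ, top_eq_zero]
      intro J I h
      by_contra h5
      have := hx' J I h5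
      linarith
  omega

theorem graded [CharZero K] (𝓣 : TFam K ι) (hr : S_rank 𝓣) : S_gr 𝓣 := by
  classical
  rintro n p N w hW ⟨z, hz, hzN, hz0⟩
  -- the maximal weight
  obtain ⟨I₁, hI₁⟩ : ∃ I, z I ≠ 0 := by
    by_contra h
    push Not at h
    exact hz0 (funext h)
  have hlt : ∀ I, z I ≠ 0 → wt w (fun _ : Fin p => true) I < 0 :=
    hW.lt (fun _ : Fin p => true) (by rw [Fintype.card_fin]; omega) z hz hzN
  obtain ⟨I₀, hI₀, hmax⟩ := Finset.exists_max_image (Finset.univ.filter fun I => z I ≠ 0)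
    (fun I => wt w (fun _ : Fin p => true) I) ⟨I₁, by simp [hI₁]⟩
  rw [Finset.mem_filter] at hI₀
  set t : ℝ := - wt w (fun _ : Fin p => true) I₀ with ht
  have ht0 : 0 < t := by
    have := hlt I₀ hI₀.2
    linarith
  have hle : ∀ I, z I ≠ 0 → wt w (fun _ : Fin p => true) I ≤ -t := by
    intro I hI
    have := hmax I (by simp [hI])
    rw [ht, neg_neg]
    exact this
  have hprod : ∀ {k : ℕ}, k < N + 1 → k * p ≤ N * p := fun hk =>
    Nat.mul_le_mul_right p (Nat.lt_succ_iff.1 hk)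
  have hu1 : ∀ (k : ℕ) (I : (symOb 𝓣 p k).S → ι) (E : (Ob.one 𝓣).S → ι), Uv 𝓣 z k I E ≠ 0 →
      wt w (symOb 𝓣 p k).ε I ≤ -(k * t) := by
    intro k I E h
    refine (wt_eb w k p I).trans_le ?_
    have h1 : ∀ a, z (fun b => I (a, b)) ≠ 0 := fun a =>
      Finset.prod_ne_zero_iff.1 (show ∏ a, z (fun b => I (a, b)) ≠ 0 from h) a (Finset.mem_univ _)
    calc ∑ a, wt w (fun _ : Fin p => true) (fun b => I (a, b)) ≤ ∑ _a : Fin k, (-t) :=
          Finset.sum_le_sum fun a _ => hle _ (h1 a)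
      _ = -(k * t) := by
          rw [Finset.sum_const, Finset.card_univ, Fintype.card_fin, nsmul_eq_mul]
          ring
  have hcard : ∀ k, Fintype.card (symOb 𝓣 p k).S = k * p := by
    intro k
    change Fintype.card (Fin k × Fin p) = k * p
    rw [Fintype.card_prod, Fintype.card_fin, Fintype.card_fin]
  -- the numbers
  refine ⟨fun k => finrank K ((Ob.HS n (Ob.one 𝓣) (symOb 𝓣 p k)).map
    (Lam w n (symOb 𝓣 p k) (Uv 𝓣 z k) (k * t))), ?_, ?_⟩
  · -- the sum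
    have key : ∀ m ≤ N + 1, ∑ k ∈ Finset.range m, finrank K
        ((Ob.HS n (Ob.one 𝓣) (symOb 𝓣 p k)).map
          (Lam w n (symOb 𝓣 p k) (Uv 𝓣 z k) (k * t))) + finrank K (Fl 𝓣 w n (m * t)) ≤
        finrank K (𝓣.Hm ((Ob.one 𝓣).st n) ((Ob.one 𝓣).st n)) := by
      intro m
      induction m with
      | zero =>
        intro _
        rw [Finset.sum_range_zero, zero_add]
        exact Submodule.finrank_mono fun x hx => hx.1
      | succ m ih =>
        intro hm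
        have h1 := ih (by omega)
        rw [Finset.sum_range_succ]
        have h2 := Fl_step (𝓣 := 𝓣) w n (c := m * t) (d := ((m + 1 : ℕ) : ℝ) * t) (by
          push_cast
          nlinarith) ((Ob.HS n (Ob.one 𝓣) (symOb 𝓣 p m)).map
            (mulR (kr (Uv 𝓣 z m) (1 : Matrix (Fin n → ι) (Fin n → ι) K)))) (by
          rintro _ ⟨M, hM, rfl⟩
          refine ⟨𝓣.Hm_mul hM.1 (𝓣.kr_mem (Uv_mem hz m) (𝓣.Hm_one _)), fun J I h => ?_⟩
          have h3 := VM_ne (Y := symOb 𝓣 p m) (c := m * t) hW (by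
            rw [hcard]
            have := hprod (k := m) (by omega)
            nlinarith) (hu1 m) hM.1 h
          linarith)
        have h5 : (Ob.HS n (Ob.one 𝓣) (symOb 𝓣 p m)).map (Lam w n (symOb 𝓣 p m) (Uv 𝓣 z m)
            (m * t)) = ((Ob.HS n (Ob.one 𝓣) (symOb 𝓣 p m)).map
            (mulR (kr (Uv 𝓣 z m) (1 : Matrix (Fin n → ι) (Fin n → ι) K)))).map
            (top K w ((Ob.one 𝓣).st n) ((Ob.one 𝓣).st n) (m * t)) :=
          Submodule.map_comp _ _ _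
        rw [h5]
        omega
    exact (Nat.le_add_right _ _).trans (key (N + 1) le_rfl)
  · intro k hk
    refine core hr hW n (symOb 𝓣 p k) ?_ ?_ (Uv 𝓣 z k) (uv_sym z k) (k * t) ?_ ?_ _ (fac_sym p k)
    · rw [hcard]
      have := hprod hk
      nlinarith
    · rw [hcard]
      have := hprod hk
      nlinarith
    · exact hu1 k
    · refine ⟨fun s : Fin k × Fin p => I₀ s.2, fun s => s.elim, ?_, ?_⟩
      · change ∏ a : Fin k, z (fun b => I₀ b) ≠ 0
        exact Finset.prod_ne_zero_iff.2 fun a _ => hI₀.2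
      · refine (wt_eb w k p _).trans ?_
        change ∑ _a : Fin k, wt w (fun _ : Fin p => true) I₀ = _
        rw [Finset.sum_const, Finset.card_univ, Fintype.card_fin, nsmul_eq_mul, ht]
        ring

end Graded

end Pool.Agent.N160.ZlGr
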